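import Pool.Agent.W401.Cheb.Main

/-!
# Chebotarev's theorem for class functions
-/

set_option autoImplicit false

namespace Pool.Agent.N397.AV

open NumberField Filter Topology Finset
open Pool.Agent.W401.Cheb

section

variable {L : Type} [Field L] [NumberField L]

/-- a Frobenius element at `p`: there is a prime ideal `Q` over `p` with `σ x ≡ x ^ p` modulo `Q` for all `x` -/
def IsFrobenius (p : ℕ) (σ : Gal(L/ℚ)) : Prop :=
  ∃ Q : Ideal (𝓞 L), Q.IsMaximal ∧ (p : 𝓞 L) ∈ Q ∧ ∀ x : 𝓞 L, σ • x - x ^ p ∈ Q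

theorem hasFrob_of {p : ℕ} [hp : Fact p.Prime] {σ : Gal(L/ℚ)} (h : IsFrobenius p σ) :
    ∃ φ : 𝓞 L →+* AlgebraicClosure (ZMod p), HasFrob p φ σ := by
  obtain ⟨Q, hQ, hpQ, hx⟩ := h
  letI : Field (𝓞 L ⧸ Q) := Ideal.Quotient.field Q
  have h0 : ((p : ℕ) : 𝓞 L ⧸ Q) = 0 := by
    have := Ideal.Quotient.eq_zero_iff_mem.2 hpQ
    rwa [map_natCast] at this
  haveI : CharP (𝓞 L ⧸ Q) p := (CharP.charP_iff_prime_eq_zero hp.out).2 h0
  letI : Algebra (ZMod p) (𝓞 L ⧸ Q) := ZMod.algebra _ p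
  haveI : Finite (𝓞 L ⧸ Q) := inferInstance
  haveI : Module.Finite (ZMod p) (𝓞 L ⧸ Q) := Module.Finite.of_finite
  haveI : Algebra.IsAlgebraic (ZMod p) (𝓞 L ⧸ Q) := Algebra.IsAlgebraic.of_finite _ _
  let ψ : (𝓞 L ⧸ Q) →ₐ[ZMod p] AlgebraicClosure (ZMod p) := IsAlgClosed.lift
  refine ⟨ψ.toRingHom.comp (Ideal.Quotient.mk Q), fun x => ?_⟩
  have h1 : Ideal.Quotient.mk Q (σ • x) = Ideal.Quotient.mk Q x ^ p := by
    rw [← map_pow]
    exact Ideal.Quotient.eq.2 (hx x)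
  show ψ (Ideal.Quotient.mk Q (σ • x)) = ψ (Ideal.Quotient.mk Q x) ^ p
  rw [h1, map_pow]

/-- **Chebotarev's theorem for class functions** -/
theorem class_mean [IsGalois ℚ L] {f : Gal(L/ℚ) → ℝ} (hf : ∀ g h, f (h⁻¹ * g * h) = f g) {a : ℕ → ℝ} (S : Finset ℕ)
    (σ : ℕ → Gal(L/ℚ)) (hσ : ∀ p, p.Prime → p ∉ S → IsFrobenius p (σ p)) (ha : ∀ p, p.Prime → p ∉ S → a p = f (σ p)) :
    Tendsto (M a) atTop (𝓝 ((∑ g : Gal(L/ℚ), f g) / Nat.card Gal(L/ℚ))) := by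
  classical
  obtain ⟨D, hD, htor⟩ := torsor L
  set D' : ℕ := D * ∏ p ∈ S, (if p = 0 then 1 else p) with hD'
  have hD'0 : 0 < D' := Nat.mul_pos hD (Finset.prod_pos fun p _ => by split_ifs <;> omega)
  have hG : (0 : ℝ) < Nat.card Gal(L/ℚ) := by exact_mod_cast Nat.card_pos
  refine M_congr (b := fun p => ∑ g : Gal(L/ℚ), (f g / Nat.card Gal(L/ℚ)) * (xp L g p : ℝ)) hD'0 (fun p hp hpD => ?_) ?_
  · haveI : Fact p.Prime := ⟨hp⟩
    have hpS : p ∉ S := fun h => hpD (by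
      refine (Dvd.dvd.trans ?_ (Finset.dvd_prod_of_mem _ h)).mul_left D
      rw [if_neg hp.ne_zero])
    have hpD0 : ¬ p ∣ D := fun h => hpD (h.mul_right _)
    have T := htor p hpD0
    obtain ⟨φ, hφ⟩ := hasFrob_of (hσ p hp hpS)
    rw [ha p hp hpS]
    simp only [fun g => xp_eq T hφ g]
    have h1 : ∀ g : Gal(L/ℚ), ((Nat.card {τ : Gal(L/ℚ) // τ⁻¹ * σ p * τ = g} : ℕ) : ℝ) =
        ∑ τ : Gal(L/ℚ), if τ⁻¹ * σ p * τ = g then (1 : ℝ) else 0 := by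
      intro g
      rw [Nat.card_eq_fintype_card, Fintype.card_subtype, Finset.card_filter]
      push_cast
      rfl
    simp only [h1, Finset.mul_sum]
    rw [Finset.sum_comm]
    have h2 : ∀ τ : Gal(L/ℚ), ∑ g : Gal(L/ℚ), f g / (Nat.card Gal(L/ℚ) : ℝ) *
        (if τ⁻¹ * σ p * τ = g then (1 : ℝ) else 0) = f (σ p) / Nat.card Gal(L/ℚ) := by
      intro τ
      have h3 : ∀ g : Gal(L/ℚ), f g / (Nat.card Gal(L/ℚ) : ℝ) * (if τ⁻¹ * σ p * τ = g then (1 : ℝ) else 0) =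
          if τ⁻¹ * σ p * τ = g then f (σ p) / Nat.card Gal(L/ℚ) else 0 := by
        intro g
        split_ifs with h4
        · rw [← h4, hf, mul_one]
        · rw [mul_zero]
      simp only [h3]
      rw [Finset.sum_ite_eq univ]
      simp
    rw [Finset.sum_congr rfl fun τ _ => h2 τ, Finset.sum_const, Finset.card_univ, nsmul_eq_mul, ← Nat.card_eq_fintype_card]
    field_simp
  · have h1 : ∀ N, M (fun p => ∑ g : Gal(L/ℚ), (f g / Nat.card Gal(L/ℚ)) * (xp L g p : ℝ)) N =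
        ∑ g : Gal(L/ℚ), (f g / Nat.card Gal(L/ℚ)) * M (fun p => (xp L g p : ℝ)) N := by
      intro N
      rw [M_sum]
      exact Finset.sum_congr rfl fun g _ => M_smul _ _ _
    have h2 : Tendsto (fun N => ∑ g : Gal(L/ℚ), (f g / (Nat.card Gal(L/ℚ) : ℝ)) * M (fun p => (xp L g p : ℝ)) N) atTop
        (𝓝 (∑ g : Gal(L/ℚ), (f g / (Nat.card Gal(L/ℚ) : ℝ)) * 1)) :=
      tendsto_finset_sum _ fun g _ => (chebotarev L g).const_mul _
    have e1 : ∑ g : Gal(L/ℚ), (f g / (Nat.card Gal(L/ℚ) : ℝ)) * 1 = (∑ g : Gal(L/ℚ), f g) / Nat.card Gal(L/ℚ) := by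
      rw [Finset.sum_div]
      exact Finset.sum_congr rfl fun g _ => mul_one _
    rw [e1] at h2
    exact h2.congr fun N => (h1 N).symm

end

end Pool.Agent.N397.AV
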