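import Pool.Agent.X278.AV.Gen2
import Pool.Agent.X278.AV.Mom

/-!
# Independence of local functions over a family of minimal points of boxes

The families and the mean value theorem are those of `Pool.Agent.X278.AV` (helper278).
-/

set_option autoImplicit false

namespace Pool.Agent.N397.AV

open Filter Topology Finset
open Pool.Agent.X278.AV Pool.Agent.X278.OP
open Pool.Agent.W189.ML (om om_nonneg)

variable {k : ℕ} {e : Fin k → ℕ} {a : ℕ → Fin k → ℕ} {Z : (Fin k → ℤ) → Prop}

theorem avg_mul {M p : ℕ} [NeZero M] [NeZero p] [NeZero (M * p)] (hc : M.Coprime p)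
    (f : (Fin k → ZMod M) → ℝ) (g : (Fin k → ZMod p) → ℝ) :
    ∃ φ : (Fin k → ZMod (M * p)) → ℝ, (∀ x : Fin k → ℤ, φ (red (M * p) x) = f (red M x) * g (red p x)) ∧
      avg φ = avg f * avg g := by
  classical
  set φ : (Fin k → ZMod (M * p)) → ℝ := fun r =>
    f (fun j => ZMod.castHom (dvd_mul_right M p) (ZMod M) (r j)) *
      g (fun j => ZMod.castHom (dvd_mul_left p M) (ZMod p) (r j)) with hφ
  refine ⟨φ, fun x => ?_, ?_⟩
  · rw [hφ]
    simp only [red, map_intCast]
    rfl
  · unfold avg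
    have h3 : ∑ r, φ r = (∑ r, f r) * ∑ r, g r := by
      have h4 : (∑ r, f r) * ∑ r, g r = ∑ x : (Fin k → ZMod M) × (Fin k → ZMod p), f x.1 * g x.2 := by
        rw [Finset.sum_mul_sum, Fintype.sum_prod_type]
      rw [h4]
      let E : (Fin k → ZMod (M * p)) ≃ (Fin k → ZMod M) × (Fin k → ZMod p) :=
        ((Equiv.piCongrRight fun _ => (ZMod.chineseRemainder hc).toEquiv).trans
          (Equiv.arrowProdEquivProdArrow (Fin k) _ _))
      have h5 : ∀ z, (ZMod.chineseRemainder hc z).1 = ZMod.castHom (dvd_mul_right M p) (ZMod M) z := fun z =>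
        RingHom.ext_iff.1 (Subsingleton.elim ((RingHom.fst (ZMod M) (ZMod p)).comp
          ((ZMod.chineseRemainder hc : ZMod (M * p) ≃+* ZMod M × ZMod p) : ZMod (M * p) →+* ZMod M × ZMod p))
          (ZMod.castHom (dvd_mul_right M p) (ZMod M))) z
      have h6 : ∀ z, (ZMod.chineseRemainder hc z).2 = ZMod.castHom (dvd_mul_left p M) (ZMod p) z := fun z =>
        RingHom.ext_iff.1 (Subsingleton.elim ((RingHom.snd (ZMod M) (ZMod p)).comp
          ((ZMod.chineseRemainder hc : ZMod (M * p) ≃+* ZMod M × ZMod p) : ZMod (M * p) →+* ZMod M × ZMod p))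
          (ZMod.castHom (dvd_mul_left p M) (ZMod p))) z
      refine Fintype.sum_equiv E _ _ fun r => ?_
      have h7 : (E r).1 = fun j => ZMod.castHom (dvd_mul_right M p) (ZMod M) (r j) := funext fun j => h5 (r j)
      have h8 : (E r).2 = fun j => ZMod.castHom (dvd_mul_left p M) (ZMod p) (r j) := funext fun j => h6 (r j)
      rw [h7, h8]
    rw [h3]
    push_cast
    rw [mul_pow, mul_div_mul_comm]

/-- products of local functions over a finite set of primes -/
theorem many (g : (p : Nat.Primes) → (Fin k → ZMod p) → ℝ) (I : Finset Nat.Primes) :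
    ∃ (M : ℕ) (_ : NeZero M) (φ : (Fin k → ZMod M) → ℝ), M = ∏ p ∈ I, (p : ℕ) ∧
      (∀ x : Fin k → ℤ, φ (red M x) = ∏ p ∈ I, g p (red p x)) ∧ avg φ = ∏ p ∈ I, avg (g p) := by
  classical
  induction I using Finset.induction_on with
  | empty =>
    refine ⟨1, ⟨one_ne_zero⟩, fun _ => 1, by simp, fun x => by simp, ?_⟩
    unfold avg
    simp
  | insert q I hq ih =>
    obtain ⟨M, hM, φ, h1, h2, h3⟩ := ih
    have hq0 : NeZero ((q : ℕ)) := ⟨q.2.ne_zero⟩
    have hc : M.Coprime (q : ℕ) := by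
      rw [h1]
      refine Nat.Coprime.prod_left fun p hp => ?_
      refine (Nat.coprime_primes p.2 q.2).2 fun h => ?_
      have : p = q := Subtype.ext h
      rw [this] at hp
      exact hq hp
    have hMq : NeZero (M * (q : ℕ)) := ⟨mul_ne_zero hM.ne q.2.ne_zero⟩
    obtain ⟨ψ, k1, k2⟩ := avg_mul hc φ (g q)
    refine ⟨M * (q : ℕ), hMq, ψ, ?_, fun x => ?_, ?_⟩
    · rw [Finset.prod_insert hq, h1, mul_comm]
    · rw [k1, h2, Finset.prod_insert hq, mul_comm]
    · rw [k2, h3, Finset.prod_insert hq, mul_comm]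

theorem fac_prod (s : ℕ) (I : Finset Nat.Primes) :
    fac s (∏ p ∈ I, (p : ℕ)) = ∏ p ∈ I, (1 - (((p : ℕ) : ℝ) ^ s)⁻¹) := by
  classical
  unfold fac
  have h1 : (∏ p ∈ I, (p : ℕ)).primeFactors = I.map ⟨fun p : Nat.Primes => (p : ℕ), Subtype.val_injective⟩ := by
    have h2 : ∏ p ∈ I, (p : ℕ) = ∏ q ∈ I.map ⟨fun p : Nat.Primes => (p : ℕ), Subtype.val_injective⟩, q := by
      rw [Finset.prod_map]
      rfl
    rw [h2, Nat.primeFactors_prod]
    intro q hq
    obtain ⟨p, -, rfl⟩ := Finset.mem_map.1 hq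
    exact p.2
  rw [h1, Finset.prod_map]
  rfl

theorem data_many (D : Data k e a Z) {g : (p : Nat.Primes) → (Fin k → ZMod p) → ℝ} (hg : ∀ p, g p 0 = 0)
    (I : Finset Nat.Primes) :
    Tendsto (fun X => mean (Fam e Z (a X)) (fun x => ∏ p ∈ I, g p (red p x))) atTop
      (𝓝 (∏ p ∈ I, Ex (∑ j, e j) (p : ℕ) (g p))) := by
  classical
  obtain ⟨M, hM, φ, h1, h2, h3⟩ := many g I
  have h4 := mean_lim (N := M) D.hk D.he φ (fun m hm y => ?_) a D.ha Z D.zero D.lim
  · have e1 : avg φ / fac (∑ j, e j) M = ∏ p ∈ I, Ex (∑ j, e j) (p : ℕ) (g p) := by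
      rw [h3, h1, fac_prod, ← Finset.prod_div_distrib]
      rfl
    rw [e1] at h4
    refine h4.congr fun X => ?_
    unfold mean
    congr 1
    exact Finset.sum_congr rfl fun x _ => h2 x
  · have h5 : ∃ p ∈ I, (p : ℕ) ∣ m := by
      by_contra h
      push Not at h
      apply hm
      rw [h1]
      refine Nat.Coprime.prod_right fun p hp => ?_
      exact ((Nat.Prime.coprime_iff_not_dvd p.2).2 (h p hp)).symm
    obtain ⟨p, hp, hpm⟩ := h5
    have h6 : (fun j => (((m : ℤ) ^ e j * y j : ℤ) : ZMod M)) = red M (fun j => (m : ℤ) ^ e j * y j) := rfl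
    rw [h6, h2]
    refine Finset.prod_eq_zero hp ?_
    have h7 : red (p : ℕ) (fun j => (m : ℤ) ^ e j * y j) = 0 := by
      funext j
      have h8 : ((m : ℤ) : ZMod p) = 0 := by
        rw [Int.cast_natCast, ZMod.natCast_eq_zero_iff]
        exact hpm
      unfold red
      rw [Int.cast_mul, Int.cast_pow, h8, zero_pow (by have := D.he j; omega), zero_mul]
      rfl
    rw [h7, hg]

/-- **independence** -/
theorem box_ind (D : Data k e a Z) {g : (p : Nat.Primes) → (Fin k → ZMod p) → ℝ} (hg : ∀ p, g p 0 = 0)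
    {B : Nat.Primes → ℝ} (hB : ∀ p r, |g p r| ≤ B p) :
    Ind (fun X => Fam e Z (a X)) (fun (p : Nat.Primes) x => ((g p (red p x) : ℝ) : ℂ)) B
      (fun p => ((Ex (∑ j, e j) (p : ℕ) (g p) : ℝ) : ℂ)) where
  bd := fun p X x _ => by
    rw [Complex.norm_real, Real.norm_eq_abs]
    exact hB p _
  fin := fun I => by
    have h1 := (Complex.continuous_ofReal.tendsto _).comp (data_many D hg I)
    rw [Complex.ofReal_prod] at h1
    refine h1.congr fun X => ?_
    simp only [Function.comp_apply]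
    unfold mean meanC
    push_cast
    rfl
  ne := fam_ne D

end Pool.Agent.N397.AV
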