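import Pool.Agent.N397.AV.Crt
import Pool.Agent.X278.AV.MomQ2

/-!
# Moments of products of local functions over a family of minimal points of boxes
-/

set_option autoImplicit false

namespace Pool.Agent.N397.AV

open Filter Topology Finset
open Pool.Agent.X278.AV Pool.Agent.X278.OP
open Pool.Agent.W189.ML (om om_nonneg)

variable {k : ℕ} {e : Fin k → ℕ} {a : ℕ → Fin k → ℕ} {Z : (Fin k → ℤ) → Prop}

theorem Ex_abs_le {s p : ℕ} [NeZero p] (hs : 1 ≤ s) (hp : 2 ≤ p) {f : (Fin k → ZMod p) → ℝ} {b : ℝ}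
    (hf : ∀ r, |f r| ≤ b) : |Ex s p f| ≤ 2 * b := by
  have hp2 : (2 : ℝ) ≤ p := by exact_mod_cast hp
  have hb : 0 ≤ b := (abs_nonneg _).trans (hf 0)
  have h1 : ((p : ℝ) ^ s)⁻¹ ≤ 1 / 2 := by
    rw [inv_le_comm₀ (by positivity) (by norm_num)]
    have : (2 : ℝ) ^ 1 ≤ (p : ℝ) ^ s := (pow_le_pow_left₀ (by norm_num) hp2 1).trans
      (pow_le_pow_right₀ (by linarith) hs)
    linarith
  have h2 : |avg f| ≤ b := by
    unfold avg
    have hN : (0 : ℝ) < (p : ℝ) ^ k := by positivity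
    rw [abs_div, abs_of_pos hN, div_le_iff₀ hN]
    refine (Finset.abs_sum_le_sum_abs _ _).trans ((Finset.sum_le_sum fun r _ => hf r).trans (le_of_eq ?_))
    rw [Finset.sum_const, Finset.card_univ, nsmul_eq_mul, Fintype.card_fun, Fintype.card_fin, ZMod.card]
    push_cast
    ring
  unfold Ex
  rw [abs_div, abs_of_pos (by linarith : 0 < 1 - ((p : ℝ) ^ s)⁻¹), div_le_iff₀ (by linarith)]
  nlinarith

theorem avg_add {p : ℕ} [NeZero p] (f g : (Fin k → ZMod p) → ℝ) : avg (fun r => f r + g r) = avg f + avg g := by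
  unfold avg
  rw [Finset.sum_add_distrib, add_div]

theorem avg_mul_left {p : ℕ} [NeZero p] (c : ℝ) (f : (Fin k → ZMod p) → ℝ) : avg (fun r => c * f r) = c * avg f := by
  unfold avg
  rw [← Finset.mul_sum, mul_div_assoc]

theorem Ex_add {s p : ℕ} [NeZero p] (f g : (Fin k → ZMod p) → ℝ) : Ex s p (fun r => f r + g r) = Ex s p f + Ex s p g := by
  unfold Ex
  rw [avg_add, add_div]

theorem Ex_mul_left {s p : ℕ} [NeZero p] (c : ℝ) (f : (Fin k → ZMod p) → ℝ) : Ex s p (fun r => c * f r) = c * Ex s p f := by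
  unfold Ex
  rw [avg_mul_left, mul_div_assoc]

/-- the local factor of the moments -/
noncomputable def ph (s : ℕ) (Y : (p : Nat.Primes) → (Fin k → ZMod p) → ℝ) (p : Nat.Primes) (x : ℝ) : ℝ :=
  1 + Ex s (p : ℕ) (fun r => Real.exp (x * Y p r) - 1)

section

variable {s : ℕ} {Y : (p : Nat.Primes) → (Fin k → ZMod p) → ℝ} {B : ℝ}

theorem delta (p : Nat.Primes) : 0 < (√((p : ℕ) : ℝ))⁻¹ ∧ (√((p : ℕ) : ℝ))⁻¹ ≤ 3 / 4 := by
  obtain ⟨h1, h2, -⟩ := de_facts p
  exact ⟨h1, h2⟩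

/-- a uniform lower bound -/
theorem ph_lower (hk : 0 < k) (hs : k ≤ s) (hY0 : ∀ p, Y p 0 = 0) (hB : 0 ≤ B) (hY : ∀ p r, |Y p r| ≤ B / √((p : ℕ) : ℝ))
    {K x : ℝ} (hx : |x| ≤ K) (p : Nat.Primes) : 1 / 2 * Real.exp (-(K * B)) ≤ ph s Y p x := by
  classical
  have hp2 : (2 : ℝ) ≤ (p : ℕ) := by exact_mod_cast p.2.two_le
  have hp0 : (0 : ℝ) < (p : ℕ) := by linarith
  have hK : 0 ≤ K := (abs_nonneg x).trans hx
  obtain ⟨d0, d1⟩ := delta p
  set E : ℝ := Real.exp (-(K * B)) with hE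
  have hE0 : 0 < E := Real.exp_pos _
  have hE1 : E ≤ 1 := Real.exp_le_one_iff.2 (by nlinarith [mul_nonneg hK hB])
  have hxY : ∀ r, E ≤ Real.exp (x * Y p r) := by
    intro r
    apply Real.exp_le_exp.2
    have h1 : |x * Y p r| ≤ K * B := by
      rw [abs_mul]
      have h2 : |Y p r| ≤ B := by
        refine (hY p r).trans ?_
        rw [div_eq_mul_inv]
        nlinarith
      exact mul_le_mul hx h2 (abs_nonneg _) hK
    exact neg_le_of_abs_le h1
  set N : ℝ := ((p : ℕ) : ℝ) ^ k with hN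
  have hN0 : 0 < N := by positivity
  have hN2 : 2 ≤ N := by
    rw [hN]
    calc (2 : ℝ) = 2 ^ 1 := by norm_num
      _ ≤ ((p : ℕ) : ℝ) ^ 1 := pow_le_pow_left₀ (by norm_num) hp2 1
      _ ≤ _ := pow_le_pow_right₀ (by linarith) hk
  have hsum : 1 + (N - 1) * E ≤ ∑ r : Fin k → ZMod p, Real.exp (x * Y p r) := by
    rw [← Finset.add_sum_erase _ _ (mem_univ (0 : Fin k → ZMod p)), hY0, mul_zero, Real.exp_zero]
    have h1 : ∑ r ∈ univ.erase (0 : Fin k → ZMod p), E ≤ ∑ r ∈ univ.erase (0 : Fin k → ZMod p), Real.exp (x * Y p r) :=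
      Finset.sum_le_sum fun r _ => hxY r
    rw [Finset.sum_const, Finset.card_erase_of_mem (mem_univ _), Finset.card_univ, Fintype.card_fun, Fintype.card_fin,
      ZMod.card, nsmul_eq_mul, Nat.cast_sub (Nat.one_le_pow _ _ p.2.pos)] at h1
    push_cast at h1
    linarith
  set ε : ℝ := (((p : ℕ) : ℝ) ^ s)⁻¹ with hε
  have hε0 : 0 < ε := by positivity
  have hεN : ε ≤ N⁻¹ := by
    rw [hε, hN]
    apply inv_anti₀ (by positivity)
    exact pow_le_pow_right₀ (by linarith) hs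
  have hNi : N⁻¹ ≤ 1 / 2 := by
    rw [inv_le_comm₀ hN0 (by norm_num)]
    linarith
  have e1 : ph s Y p x = ((∑ r : Fin k → ZMod p, Real.exp (x * Y p r)) / N - ε) / (1 - ε) := by
    unfold ph Ex avg
    rw [Finset.sum_sub_distrib, Finset.sum_const, Finset.card_univ, Fintype.card_fun, Fintype.card_fin, ZMod.card,
      nsmul_eq_mul, mul_one]
    push_cast
    rw [← hN, ← hε, sub_div, div_self hN0.ne']
    have : (1 - ε) ≠ 0 := by linarith
    field_simp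
    ring
  rw [e1, le_div_iff₀ (by linarith)]
  have h2 : N⁻¹ + (1 - N⁻¹) * E ≤ (∑ r : Fin k → ZMod p, Real.exp (x * Y p r)) / N := by
    rw [le_div_iff₀ hN0]
    refine le_trans (le_of_eq ?_) hsum
    field_simp
  have h3 : 1 / 2 * E * (1 - ε) ≤ 1 / 2 * E := by nlinarith
  nlinarith

theorem ph_pos (hk : 0 < k) (hs : k ≤ s) (hY0 : ∀ p, Y p 0 = 0) (hB : 0 ≤ B) (hY : ∀ p r, |Y p r| ≤ B / √((p : ℕ) : ℝ))
    (x : ℝ) (p : Nat.Primes) : 0 < ph s Y p x :=
  lt_of_lt_of_le (by positivity) (ph_lower hk hs hY0 hB hY le_rfl p)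

theorem ph_cont (p : Nat.Primes) : Continuous (ph s Y p) := by
  unfold ph Ex avg
  fun_prop

/-- **the expansion of the local factor** -/
theorem ph_exp (hk : 0 < k) (hs : k ≤ s) (hY0 : ∀ p, Y p 0 = 0) (hB : 0 ≤ B) (hY : ∀ p r, |Y p r| ≤ B / √((p : ℕ) : ℝ))
    {κ v C : ℝ} (hC : 0 ≤ C)
    (h1 : ∀ p : Nat.Primes, |Ex s (p : ℕ) (Y p) - κ / (p : ℕ)| ≤ C / (√((p : ℕ) : ℝ) * (p : ℕ)))
    (h2 : ∀ p : Nat.Primes, |Ex s (p : ℕ) (fun r => Y p r ^ 2) - v / (p : ℕ)| ≤ C / (√((p : ℕ) : ℝ) * (p : ℕ))) (K : ℝ) :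
    ∃ C' : ℝ, ∀ (p : Nat.Primes) (x : ℝ), |x| ≤ K →
      |Real.log (ph s Y p x) - (κ * x + v / 2 * x ^ 2) / (p : ℕ)| ≤ C' / (√((p : ℕ) : ℝ) * (p : ℕ)) := by
  rcases lt_or_ge K 0 with hK | hK
  · exact ⟨0, fun p x hx => absurd ((abs_nonneg x).trans hx) (not_le.2 hK)⟩
  set L : ℝ := 1 / 2 * Real.exp (-(K * B)) with hL
  have hL0 : 0 < L := by positivity
  set E : ℝ := Real.exp (K * B) with hE
  set C₁ : ℝ := K * C + K ^ 2 * C + 2 * (K ^ 3 * B ^ 3 * E) with hC₁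
  set D₁ : ℝ := |κ| * K + |v| * K ^ 2 with hD₁
  refine ⟨C₁ + (C₁ + D₁) ^ 2 / L, fun p x hx => ?_⟩
  have hp0 : (0 : ℝ) < (p : ℕ) := by exact_mod_cast p.2.pos
  obtain ⟨d0, d1, d2⟩ := de_facts p
  set δ : ℝ := (√((p : ℕ) : ℝ))⁻¹ with hδ
  have hδ3 : ∀ c : ℝ, c / (√((p : ℕ) : ℝ) * (p : ℕ)) = c * δ ^ 3 := by
    intro c
    have : δ ^ 3 = δ * δ ^ 2 := by ring
    rw [this, d2, hδ]
    field_simp
  have hδ2 : ∀ c : ℝ, c / ((p : ℕ) : ℝ) = c * δ ^ 2 := by
    intro c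
    rw [d2]
    ring
  have hx0 := abs_nonneg x
  have hs1 : 1 ≤ s := hk.trans_le hs
  set y : ℝ := Ex s (p : ℕ) (fun r => Real.exp (x * Y p r) - 1) with hy
  have hφ : ph s Y p x = 1 + y := rfl
  have hlow : L ≤ 1 + y := by
    rw [← hφ]
    exact ph_lower hk hs hY0 hB hY hx p
  -- the remainder
  have hrem : ∀ r, |Real.exp (x * Y p r) - 1 - x * Y p r - (x * Y p r) ^ 2 / 2| ≤ K ^ 3 * B ^ 3 * E * δ ^ 3 := by
    intro r
    have g1 : |x * Y p r| ≤ K * (B * δ) := by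
      rw [abs_mul]
      have := hY p r
      rw [div_eq_mul_inv] at this
      exact mul_le_mul hx this (abs_nonneg _) hK
    have g2 : |x * Y p r| ≤ K * B := g1.trans (by
      apply mul_le_mul_of_nonneg_left _ hK
      nlinarith)
    refine (exp_rem _).trans ?_
    calc |x * Y p r| ^ 3 * Real.exp |x * Y p r| ≤ (K * (B * δ)) ^ 3 * E := by
          gcongr
          exact Real.exp_le_exp.2 g2
      _ = _ := by ring
  have e1 : y = x * Ex s (p : ℕ) (Y p) + x ^ 2 / 2 * Ex s (p : ℕ) (fun r => Y p r ^ 2) +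
      Ex s (p : ℕ) (fun r => Real.exp (x * Y p r) - 1 - x * Y p r - (x * Y p r) ^ 2 / 2) := by
    rw [hy, ← Ex_mul_left, ← Ex_mul_left, ← Ex_add, ← Ex_add]
    congr 1
    funext r
    ring
  have h3 : |y - (κ * x + v / 2 * x ^ 2) / (p : ℕ)| ≤ C₁ * δ ^ 3 := by
    have g1 := h1 p
    have g2 := h2 p
    rw [hδ3] at g1 g2
    have g3 := Ex_abs_le (s := s) hs1 p.2.two_le hrem
    have e2 : y - (κ * x + v / 2 * x ^ 2) / (p : ℕ) = x * (Ex s (p : ℕ) (Y p) - κ / (p : ℕ)) +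
        x ^ 2 / 2 * (Ex s (p : ℕ) (fun r => Y p r ^ 2) - v / (p : ℕ)) +
        Ex s (p : ℕ) (fun r => Real.exp (x * Y p r) - 1 - x * Y p r - (x * Y p r) ^ 2 / 2) := by
      rw [e1]
      ring
    rw [e2]
    refine (abs_add_le _ _).trans ((add_le_add ((abs_add_le _ _).trans (le_refl _)) g3).trans ?_)
    rw [abs_mul, abs_mul, abs_of_nonneg (by positivity : 0 ≤ x ^ 2 / 2)]
    have hx2 : x ^ 2 ≤ K ^ 2 := by
      rw [← sq_abs x]
      exact pow_le_pow_left₀ hx0 hx 2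
    have g4 : |x| * |Ex s (p : ℕ) (Y p) - κ / (p : ℕ)| ≤ K * (C * δ ^ 3) :=
      mul_le_mul hx g1 (abs_nonneg _) hK
    have g5 : x ^ 2 / 2 * |Ex s (p : ℕ) (fun r => Y p r ^ 2) - v / (p : ℕ)| ≤ K ^ 2 * (C * δ ^ 3) :=
      mul_le_mul (by nlinarith [sq_nonneg K]) g2 (abs_nonneg _) (by positivity)
    rw [hC₁]
    nlinarith
  have h4 : |(κ * x + v / 2 * x ^ 2) / (p : ℕ)| ≤ D₁ * δ ^ 2 := by
    rw [hδ2, abs_mul, abs_of_nonneg (by positivity : 0 ≤ δ ^ 2)]
    have : |κ * x + v / 2 * x ^ 2| ≤ D₁ := by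
      refine (abs_add_le _ _).trans ?_
      rw [abs_mul, abs_mul, abs_div, abs_of_pos (by norm_num : (0 : ℝ) < 2), abs_of_nonneg (sq_nonneg x)]
      have hx2 : x ^ 2 ≤ K ^ 2 := by
        rw [← sq_abs x]
        exact pow_le_pow_left₀ hx0 hx 2
      have g1 : |κ| * |x| ≤ |κ| * K := mul_le_mul_of_nonneg_left hx (abs_nonneg _)
      have g2 : |v| / 2 * x ^ 2 ≤ |v| * K ^ 2 := by
        have := mul_le_mul_of_nonneg_left hx2 (abs_nonneg v)
        nlinarith [abs_nonneg v, sq_nonneg x, mul_nonneg (abs_nonneg v) (sq_nonneg x)]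
      linarith
    gcongr
  rw [hφ, hδ3]
  have hC₁0 : 0 ≤ C₁ := by positivity
  have hD₁0 : 0 ≤ D₁ := by positivity
  exact log_step d0.le (by linarith) hL0 hlow hC₁0 hD₁0 h3 h4

end

/-- **the mean of the exponentials** -/
theorem mean_exp (D : Data k e a Z) {Y : (p : Nat.Primes) → (Fin k → ZMod p) → ℝ} (hY0 : ∀ p, Y p 0 = 0) {B : ℝ}
    (hB : 0 ≤ B) (hY : ∀ p r, |Y p r| ≤ B / √((p : ℕ) : ℝ)) (γ c : ℝ) {T : ℝ} (hT : 0 < T) :
    Tendsto (fun X => mean (Fam e Z (a X)) (fun x => Real.exp (c * ∑' p : Nat.Primes,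
      wr γ (Real.log (p : ℕ) / T) * Y p (red p x)))) atTop
      (𝓝 (∏' p : Nat.Primes, ph (∑ j, e j) Y p (c * wr γ (Real.log (p : ℕ) / T)))) := by
  classical
  have hs1 : 1 ≤ ∑ j, e j := by
    have h0 := D.hk
    have h1 := D.he ⟨0, h0⟩
    have h2 : e ⟨0, h0⟩ ≤ ∑ j, e j := Finset.single_le_sum (fun _ _ => Nat.zero_le _) (mem_univ _)
    omega
  set x : Nat.Primes → ℝ := fun p => c * wr γ (Real.log (p : ℕ) / T) with hx
  have hup : ∀ p : Nat.Primes, 0 ≤ Real.log (p : ℕ) / T := fun p =>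
    div_nonneg (Real.log_nonneg (by exact_mod_cast p.2.one_le)) hT.le
  set K : ℝ := |c| * (Real.exp 1 + 1) with hK
  have hK0 : 0 ≤ K := by positivity
  have hxK : ∀ p, |x p| ≤ K := by
    intro p
    show |c * wr γ (Real.log (p : ℕ) / T)| ≤ |c| * (Real.exp 1 + 1)
    rw [abs_mul]
    exact mul_le_mul_of_nonneg_left (wr_bd γ (hup p)) (abs_nonneg c)
  set Bp : Nat.Primes → ℝ := fun p => B * Real.exp (K * B) * (√((p : ℕ) : ℝ))⁻¹ * |x p| with hBp
  have hBs : Summable Bp := by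
    refine Summable.of_nonneg_of_le (fun p => by positivity) (fun p => ?_)
      (wt_sum (γ := γ) hT (B := B * Real.exp (K * B) * |c|) (by positivity))
    rw [norm_Wt γ (hup p)]
    have h1 := wr_le γ (hup p)
    rw [hBp]
    simp only
    rw [hx]
    simp only
    rw [abs_mul]
    calc _ ≤ B * Real.exp (K * B) * (√((p : ℕ) : ℝ))⁻¹ * (|c| * om (Real.log (p : ℕ) / T)) := by gcongr
      _ = _ := by rw [div_eq_mul_inv]; ring
  have hg0 : ∀ p : Nat.Primes, (fun r : Fin k → ZMod p => Real.exp (x p * Y p r) - 1) 0 = 0 := by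
    intro p
    simp only
    rw [hY0, mul_zero, Real.exp_zero, sub_self]
  have hgB : ∀ (p : Nat.Primes) (r : Fin k → ZMod p), |Real.exp (x p * Y p r) - 1| ≤ Bp p := by
    intro p r
    obtain ⟨d0, d1⟩ := delta p
    refine (exp_one_rem _).trans ?_
    have g0 := hY p r
    rw [div_eq_mul_inv] at g0
    have g1 : |x p * Y p r| ≤ |x p| * (B * (√((p : ℕ) : ℝ))⁻¹) := by
      rw [abs_mul]
      gcongr
    have g2 : |x p * Y p r| ≤ K * B := by
      refine g1.trans (mul_le_mul (hxK p) ?_ (by positivity) hK0)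
      nlinarith
    calc |x p * Y p r| * Real.exp |x p * Y p r| ≤ (|x p| * (B * (√((p : ℕ) : ℝ))⁻¹)) * Real.exp (K * B) := by gcongr
      _ = _ := by rw [hBp]; ring
  have DI := box_ind D (g := fun p r => Real.exp (x p * Y p r) - 1) hg0 (B := Bp) hgB
  have h3 := DI.prod hBs
  have hsum : ∀ y : Fin k → ℤ, Summable fun p : Nat.Primes => |wr γ (Real.log (p : ℕ) / T) * Y p (red p y)| := by
    intro y
    refine Summable.of_nonneg_of_le (fun _ => abs_nonneg _) (fun p => ?_) (wt_sum (γ := γ) hT (B := B) hB)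
    rw [abs_mul, norm_Wt γ (hup p)]
    have h1 := wr_le γ (hup p)
    have h2 := hY p (red p y)
    have h4 := om_nonneg (hup p)
    calc _ ≤ om (Real.log (p : ℕ) / T) * (B / √((p : ℕ) : ℝ)) := by gcongr
      _ = _ := by ring
  have hprod : ∀ y : Fin k → ℤ, ((Real.exp (c * ∑' p : Nat.Primes, wr γ (Real.log (p : ℕ) / T) * Y p (red p y)) : ℝ) : ℂ) =
      ∏' p : Nat.Primes, ((1 : ℂ) + ((Real.exp (x p * Y p (red p y)) - 1 : ℝ) : ℂ)) := by
    intro y
    have s1 := (hsum y).of_abs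
    have h5 : HasProd (fun p : Nat.Primes => Real.exp (c * (wr γ (Real.log (p : ℕ) / T) * Y p (red p y))))
        (Real.exp (c * ∑' p : Nat.Primes, wr γ (Real.log (p : ℕ) / T) * Y p (red p y))) := by
      rw [← tsum_mul_left]
      refine Real.hasProd_of_hasSum_log (fun p => Real.exp_pos _) ?_
      simp only [Real.log_exp]
      exact (s1.mul_left c).hasSum
    have h6 := h5.map (Complex.ofRealHom : ℝ →+* ℂ).toMonoidHom Complex.continuous_ofReal
    have h7 : ∏' p : Nat.Primes, ((Real.exp (c * (wr γ (Real.log (p : ℕ) / T) * Y p (red p y))) : ℝ) : ℂ) =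
        ((Real.exp (c * ∑' p : Nat.Primes, wr γ (Real.log (p : ℕ) / T) * Y p (red p y)) : ℝ) : ℂ) := h6.tprod_eq
    rw [← h7]
    refine tprod_congr fun p => ?_
    rw [Complex.ofReal_sub, Complex.ofReal_one, add_sub_cancel, hx]
    congr 2
    ring
  have hm : Multipliable fun p : Nat.Primes => ph (∑ j, e j) Y p (x p) := by
    have h5 : Summable fun p : Nat.Primes => ‖((Ex (∑ j, e j) (p : ℕ) (fun r => Real.exp (x p * Y p r) - 1) : ℝ) : ℂ)‖ :=
      Summable.of_nonneg_of_le (fun _ => norm_nonneg _) DI.e_le hBs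
    have h6 : Summable fun p : Nat.Primes => Ex (∑ j, e j) (p : ℕ) (fun r => Real.exp (x p * Y p r) - 1) := by
      refine Summable.of_norm (h5.congr fun p => ?_)
      rw [Complex.norm_real]
    exact Real.multipliable_one_add_of_summable h6
  have e3 : ∏' p : Nat.Primes, ((1 : ℂ) + ((Ex (∑ j, e j) (p : ℕ) (fun r => Real.exp (x p * Y p r) - 1) : ℝ) : ℂ)) =
      ((∏' p : Nat.Primes, ph (∑ j, e j) Y p (x p) : ℝ) : ℂ) := by
    have h6 := hm.hasProd.map (Complex.ofRealHom : ℝ →+* ℂ).toMonoidHom Complex.continuous_ofReal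
    have h7 : ∏' p : Nat.Primes, ((ph (∑ j, e j) Y p (x p) : ℝ) : ℂ) =
        ((∏' p : Nat.Primes, ph (∑ j, e j) Y p (x p) : ℝ) : ℂ) := h6.tprod_eq
    rw [← h7]
    refine tprod_congr fun p => ?_
    unfold ph
    push_cast
    rfl
  rw [e3] at h3
  have h4 := (Complex.continuous_re.tendsto _).comp h3
  rw [Complex.ofReal_re] at h4
  refine h4.congr fun X => ?_
  simp only [Function.comp_apply]
  unfold meanC mean
  rw [Complex.div_natCast_re, Complex.re_sum]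
  congr 1
  refine Finset.sum_congr rfl fun y _ => ?_
  rw [← hprod y, Complex.ofReal_re]

end Pool.Agent.N397.AV
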