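import Pool.Agent.X278.AV.Height
import Pool.Agent.X278.AV.QQ
import Pool.Agent.N397.AV.Pow

/-!
# The second moment of the local functions of all elliptic curves, and the moments of the products
-/

set_option autoImplicit false

namespace Pool.Agent.N397.AV

open Filter Topology Finset
open Pool.Agent.X278.AV Pool.Agent.X278.OP
open Pool.Agent.W189.ML (om om_nonneg)

section

variable {k : Type} [Field k] [Fintype k] [DecidableEq k]

/-- the mean of the square of the local function over all equations -/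
theorem ff_sq_mean (hk : (6 : k) ≠ 0 ∨ Fintype.card k < 17) :
    |(∑ a : k, ∑ b : k, ff a b ^ 2) / (Fintype.card k : ℝ) ^ 2 - 1 / (Fintype.card k : ℝ)| ≤
      60000 / (√(Fintype.card k) * Fintype.card k) := by
  set q : ℝ := ((Fintype.card k : ℕ) : ℝ) with hqd
  have hq1 : (1 : ℝ) ≤ q := by
    rw [hqd]
    exact_mod_cast (Fintype.card_pos : 0 < Fintype.card k)
  have hq0 : 0 < q := by linarith
  set r : ℝ := √q with hr
  have hr0 : 0 < r := Real.sqrt_pos.2 hq0
  have hr1 : 1 ≤ r := by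
    rw [hr]
    exact Real.one_le_sqrt.2 hq1
  have hrq : r ^ 2 = q := Real.sq_sqrt hq0.le
  rcases Nat.lt_or_ge (Fintype.card k) 17 with hs | hs
  · have hqs : q ≤ 17 := by
      rw [hqd]
      exact_mod_cast hs.le
    have hr5 : r ≤ 5 := by
      rw [hr]
      apply Real.sqrt_le_iff.2
      constructor <;> linarith
    have h1 : ∀ a b : k, ff a b ^ 2 ≤ 10000 / q := by
      intro a b
      have h2 := ff_size (a := a) (b := b)
      rw [← sq_abs]
      calc |ff a b| ^ 2 ≤ (100 / √(Fintype.card k : ℝ)) ^ 2 := pow_le_pow_left₀ (abs_nonneg _) h2 2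
        _ = 10000 / q := by
          rw [div_pow, ← hqd, ← hr, hrq]
          norm_num
    have h2 : (∑ a : k, ∑ b : k, ff a b ^ 2) / q ^ 2 ≤ 10000 / q := by
      rw [div_le_iff₀ (by positivity)]
      calc (∑ a : k, ∑ b : k, ff a b ^ 2) ≤ ∑ _a : k, ∑ _b : k, 10000 / q :=
            Finset.sum_le_sum fun a _ => Finset.sum_le_sum fun b _ => h1 a b
        _ = 10000 / q * q ^ 2 := by
          simp only [Finset.sum_const, Finset.card_univ, nsmul_eq_mul]
          rw [← hqd]
          ring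
    have h3 : 0 ≤ (∑ a : k, ∑ b : k, ff a b ^ 2) / q ^ 2 :=
      div_nonneg (Finset.sum_nonneg fun a _ => Finset.sum_nonneg fun b _ => sq_nonneg _) (by positivity)
    have h4 : 10000 / q ≤ 60000 / (r * q) := by
      rw [div_le_div_iff₀ hq0 (by positivity)]
      nlinarith
    have h5 : 1 / q ≤ 60000 / (r * q) := by
      rw [div_le_div_iff₀ hq0 (by positivity)]
      nlinarith
    rw [abs_le]
    have h6 : 0 < 1 / q := by positivity
    constructor <;> linarith
  have h6 : (6 : k) ≠ 0 := hk.resolve_right (not_lt.2 hs)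
  set t : k → k → ℝ := fun a b => ((TT a b : ℤ) : ℝ) with ht
  have hcmp : ∀ a b : k, |ff a b ^ 2 - t a b ^ 2 / q ^ 2| ≤ 957 / (r * q) +
      (if 4 * a ^ 3 + 27 * b ^ 2 = 0 then 1 / q ^ 2 else 0) := by
    intro a b
    by_cases h : 4 * a ^ 3 + 27 * b ^ 2 = 0
    · rw [if_pos h]
      have h1 : ff a b = 0 := by
        unfold ff
        rw [if_pos (by rw [h, mul_zero])]
      have h2 : |t a b| ≤ 1 := by
        have := TT_sing h6 h
        simp only [ht]
        exact_mod_cast this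
      have h3 : t a b ^ 2 ≤ 1 := by
        rw [← sq_abs]
        nlinarith [abs_nonneg (t a b)]
      rw [h1, zero_pow two_ne_zero, zero_sub, abs_neg, abs_of_nonneg (by positivity)]
      have : 0 ≤ 957 / (r * q) := by positivity
      have h4 : t a b ^ 2 / q ^ 2 ≤ 1 / q ^ 2 := by gcongr
      linarith
    · rw [if_neg h, add_zero]
      have hne := mul_ne_zero h6 h
      obtain ⟨h1, h2⟩ := ff_exp hne hs
      rw [← hqd, ← hr] at h1 h2
      have h3 : |t a b| ≤ 2 * r := by
        have := TT_bound hne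
        rw [← hqd, ← hr] at this
        exact this
      have h4 : |ff a b - t a b / q| ≤ 87 / q := by
        have e1 : ff a b - t a b / q = (ff a b - ((1 + t a b) / q - (1 + t a b) ^ 2 / (2 * q ^ 2))) +
            (1 / q - (1 + t a b) ^ 2 / (2 * q ^ 2)) := by
          field_simp
          ring
        rw [e1]
        have g1 : 81 / (r * q) ≤ 81 / q := by
          apply div_le_div_of_nonneg_left (by norm_num) hq0
          nlinarith
        have g2 : (1 + t a b) ^ 2 / (2 * q ^ 2) ≤ 5 / q := by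
          rw [div_le_div_iff₀ (by positivity) hq0]
          have g3 : (1 + t a b) ^ 2 ≤ (3 * r) ^ 2 := by
            rw [← sq_abs]
            apply pow_le_pow_left₀ (abs_nonneg _)
            refine (abs_add_le _ _).trans ?_
            rw [abs_one]
            linarith
          have g4 : (3 * r) ^ 2 = 9 * q := by rw [mul_pow, hrq]; ring
          rw [g4] at g3
          nlinarith
        have g5 : 0 ≤ (1 + t a b) ^ 2 / (2 * q ^ 2) := by positivity
        have g6 : |1 / q - (1 + t a b) ^ 2 / (2 * q ^ 2)| ≤ 6 / q := by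
          rw [abs_le]
          have e2 : (6 : ℝ) / q = 1 / q + 5 / q := by ring
          have : 0 < 1 / q := by positivity
          have : 0 < 5 / q := by positivity
          constructor <;> linarith
        have e3 : (87 : ℝ) / q = 81 / q + 6 / q := by ring
        rw [e3]
        exact (abs_add_le _ _).trans (add_le_add (h1.trans g1) g6)
      have h5 : |ff a b + t a b / q| ≤ 11 / r := by
        have g1 : |t a b / q| ≤ 2 / r := by
          rw [abs_div, abs_of_pos hq0, div_le_div_iff₀ hq0 hr0, ← hrq]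
          nlinarith
        have e3 : (11 : ℝ) / r = 9 / r + 2 / r := by ring
        rw [e3]
        exact (abs_add_le _ _).trans (add_le_add h2 g1)
      have e1 : ff a b ^ 2 - t a b ^ 2 / q ^ 2 = (ff a b - t a b / q) * (ff a b + t a b / q) := by
        field_simp
        ring
      rw [e1, abs_mul]
      calc |ff a b - t a b / q| * |ff a b + t a b / q| ≤ (87 / q) * (11 / r) := by gcongr
        _ = 957 / (r * q) := by field_simp; norm_num
  have hsum1 : |∑ a : k, ∑ b : k, ff a b ^ 2 - ∑ a : k, ∑ b : k, t a b ^ 2 / q ^ 2| ≤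
      q ^ 2 * (957 / (r * q)) + 2 / q := by
    rw [← Finset.sum_sub_distrib]
    simp only [← Finset.sum_sub_distrib]
    refine (Finset.abs_sum_le_sum_abs _ _).trans ((Finset.sum_le_sum fun a _ =>
      (Finset.abs_sum_le_sum_abs _ _).trans (Finset.sum_le_sum fun b _ => hcmp a b)).trans ?_)
    simp only [Finset.sum_add_distrib, Finset.sum_const, Finset.card_univ, nsmul_eq_mul]
    have h1 : ∑ a : k, ∑ b : k, (if 4 * a ^ 3 + 27 * b ^ 2 = 0 then 1 / q ^ 2 else 0) ≤ 2 / q := by
      have h2 : ∀ a : k, ∑ b : k, (if 4 * a ^ 3 + 27 * b ^ 2 = 0 then 1 / q ^ 2 else (0 : ℝ)) =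
          ((univ.filter fun b : k => 4 * a ^ 3 + 27 * b ^ 2 = 0).card : ℝ) * (1 / q ^ 2) := by
        intro a
        rw [← Finset.sum_filter, Finset.sum_const, nsmul_eq_mul]
      simp only [h2]
      rw [← Finset.sum_mul]
      have h3 : (∑ a : k, ((univ.filter fun b : k => 4 * a ^ 3 + 27 * b ^ 2 = 0).card : ℝ)) ≤ 2 * q := by
        have := card_sing h6
        rw [hqd]
        exact_mod_cast this
      calc _ ≤ (2 * q) * (1 / q ^ 2) := by gcongr
        _ = 2 / q := by field_simp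
    rw [← hqd]
    have e1 : q * (q * (957 / (r * q))) = q ^ 2 * (957 / (r * q)) := by ring
    rw [e1]
    linarith
  have hM2 : ∑ a : k, ∑ b : k, t a b ^ 2 / q ^ 2 = q - 1 := by
    have h1 := congrArg (fun z : ℤ => (z : ℝ)) (moment2 h6)
    have h2 : ∑ a : k, ∑ b : k, t a b ^ 2 = q ^ 2 * (q - 1) := by
      simp only [ht, hqd]
      push_cast at h1
      exact h1
    simp only [← Finset.sum_div]
    rw [h2]
    field_simp
  rw [hM2] at hsum1
  have e1 : (∑ a : k, ∑ b : k, ff a b ^ 2) / q ^ 2 - 1 / q =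
      ((∑ a : k, ∑ b : k, ff a b ^ 2 - (q - 1)) - 1) / q ^ 2 := by
    field_simp
    ring
  rw [e1, abs_div, abs_of_pos (by positivity : 0 < q ^ 2), div_le_iff₀ (by positivity)]
  have h7 : |(∑ a : k, ∑ b : k, ff a b ^ 2 - (q - 1)) - 1| ≤ (q ^ 2 * (957 / (r * q)) + 2 / q) + 1 := by
    refine (abs_sub _ _).trans ?_
    rw [abs_one]
    linarith
  refine h7.trans ?_
  have e2 : 60000 / (r * q) * q ^ 2 = 60000 * q / r := by field_simp
  have e3 : q ^ 2 * (957 / (r * q)) = 957 * q / r := by field_simp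
  rw [e2, e3]
  have h8 : 1 ≤ q / r := by
    rw [le_div_iff₀ hr0, ← hrq]
    nlinarith
  have h9 : 2 / q ≤ 2 := by
    rw [div_le_iff₀ hq0]
    linarith
  have e4 : 60000 * q / r = 60000 * (q / r) := by ring
  have e5 : 957 * q / r = 957 * (q / r) := by ring
  rw [e4, e5]
  linarith

end

theorem exH2 (p : Nat.Primes) : |Ex (∑ j, eH j) (p : ℕ) (fun r => fH p r ^ 2) - (1 : ℝ) / (p : ℕ)| ≤
    130000 / (√((p : ℕ) : ℝ) * (p : ℕ)) := by
  have hp2 : (2 : ℝ) ≤ (p : ℕ) := by exact_mod_cast p.2.two_le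
  have hp0 : (0 : ℝ) < (p : ℕ) := by linarith
  have hr0 : 0 < √((p : ℕ) : ℝ) := Real.sqrt_pos.2 hp0
  have h10 : ∑ j, eH j = 10 := by simp [eH]
  have h1 := ff_sq_mean (k := ZMod p) (by
    rcases Nat.lt_or_ge (p : ℕ) 17 with h | h
    · right
      rwa [ZMod.card]
    · left
      intro h6
      have h7 : ((6 : ℕ) : ZMod p) = 0 := by push_cast; exact h6
      rw [ZMod.natCast_eq_zero_iff] at h7
      have := Nat.le_of_dvd (by norm_num) h7
      omega)
  have hav : avg (fun r => fH p r ^ 2) = (∑ a : ZMod p, ∑ b : ZMod p, ff a b ^ 2) / ((p : ℕ) : ℝ) ^ 2 := by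
    unfold avg
    congr 1
    rw [← Fintype.sum_prod_type' (fun a b : ZMod p => ff a b ^ 2)]
    exact Fintype.sum_equiv (finTwoArrowEquiv _) _ _ fun r => rfl
  rw [ZMod.card, ← hav] at h1
  set ε : ℝ := (((p : ℕ) : ℝ) ^ 10)⁻¹ with hε
  have hε0 : 0 < ε := by positivity
  have hε1 : ε ≤ 1 / ((p : ℕ) : ℝ) := by
    rw [hε, ← one_div]
    apply one_div_le_one_div_of_le hp0
    have : ((p : ℕ) : ℝ) ^ 1 ≤ ((p : ℕ) : ℝ) ^ 10 := pow_le_pow_right₀ (by linarith) (by norm_num)
    simpa using this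
  have hε2 : ε ≤ 1 / 2 := hε1.trans (one_div_le_one_div_of_le (by norm_num) hp2)
  unfold Ex
  rw [h10, ← hε]
  have e1 : avg (fun r => fH p r ^ 2) / (1 - ε) - (1 : ℝ) / (p : ℕ) =
      (avg (fun r => fH p r ^ 2) - 1 / (p : ℕ) + ε * (1 / (p : ℕ))) / (1 - ε) := by
    have : (1 - ε) ≠ 0 := by linarith
    field_simp
    ring
  rw [e1, abs_div, abs_of_pos (by linarith : 0 < 1 - ε), div_le_iff₀ (by linarith)]
  have h2 : |ε * (1 / ((p : ℕ) : ℝ))| ≤ 1 / (√((p : ℕ) : ℝ) * (p : ℕ)) := by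
    rw [abs_of_pos (by positivity), mul_one_div, div_le_div_iff₀ (by positivity) (by positivity)]
    have h3 : √((p : ℕ) : ℝ) ≤ (p : ℕ) := by
      rw [Real.sqrt_le_left hp0.le]
      nlinarith
    have h4 : ε * √((p : ℕ) : ℝ) ≤ 1 := by
      calc ε * √((p : ℕ) : ℝ) ≤ (1 / ((p : ℕ) : ℝ)) * (p : ℕ) := by gcongr
        _ = 1 := by field_simp
    nlinarith
  have h3 := abs_add_le (avg (fun r => fH p r ^ 2) - 1 / ((p : ℕ) : ℝ)) (ε * (1 / ((p : ℕ) : ℝ)))
  have h4 : (65000 : ℝ) / (√((p : ℕ) : ℝ) * (p : ℕ)) ≤ 130000 / (√((p : ℕ) : ℝ) * (p : ℕ)) * (1 - ε) := by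
    rw [div_mul_eq_mul_div]
    gcongr
    linarith
  have h5 : (60001 : ℝ) / (√((p : ℕ) : ℝ) * (p : ℕ)) = 60000 / (√((p : ℕ) : ℝ) * (p : ℕ)) +
      1 / (√((p : ℕ) : ℝ) * (p : ℕ)) := by ring
  have h6 : (60001 : ℝ) / (√((p : ℕ) : ℝ) * (p : ℕ)) ≤ 65000 / (√((p : ℕ) : ℝ) * (p : ℕ)) := by
    gcongr
    norm_num
  linarith

theorem fH_zero (p : Nat.Primes) : fH p 0 = 0 := sysH.zero p

theorem fH_size (p : Nat.Primes) (r : Fin 2 → ZMod p) : |fH p r| ≤ 100 / √((p : ℕ) : ℝ) := by
  have := ff_size (a := r 0) (b := r 1)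
  rw [ZMod.card] at this
  exact this

theorem eH_sum : 2 ≤ ∑ j, eH j := by
  have h10 : ∑ j, eH j = 10 := by simp [eH]
  omega

/-- the local factor -/
noncomputable def pH (p : Nat.Primes) (x : ℝ) : ℝ := ph (∑ j, eH j) fH p x

theorem pH_pos (p : Nat.Primes) (x : ℝ) : 0 < pH p x :=
  ph_pos (by norm_num) eH_sum fH_zero (by norm_num) fH_size x p

theorem pH_cont (p : Nat.Primes) : Continuous (pH p) := ph_cont p

theorem pH_exp (K : ℝ) : ∃ C : ℝ, ∀ (p : Nat.Primes) (x : ℝ), |x| ≤ K →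
    |Real.log (pH p x) - (1 / 2 * x + 1 / 2 * x ^ 2) / (p : ℕ)| ≤ C / (√((p : ℕ) : ℝ) * (p : ℕ)) :=
  ph_exp (by norm_num) eH_sum fH_zero (by norm_num) fH_size (κ := 1 / 2) (v := 1) (C := 130000) (by norm_num)
    (fun p => (exH p).trans (by gcongr; norm_num)) exH2 K

/-- **the moments over all elliptic curves** -/
theorem mean_H (γ c : ℝ) {T : ℝ} (hT : 0 < T) :
    Tendsto (fun X => mean (Fam eH ZH (abH X)) (fun x => Real.exp (c * ∑' p : Nat.Primes,
      wr γ (Real.log (p : ℕ) / T) * fH p (red p x)))) atTop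
      (𝓝 (∏' p : Nat.Primes, pH p (c * wr γ (Real.log (p : ℕ) / T)))) :=
  mean_exp dataH fH_zero (by norm_num) fH_size γ c hT

end Pool.Agent.N397.AV
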