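import Pool.Agent.N397.AV.Pow
import Pool.Agent.X278.AV.Mom
import Pool.Agent.W401.Cheb.Mean0

/-!
# Weighted sums over the primes of bounded coefficients with a natural mean value
-/

set_option autoImplicit false

namespace Pool.Agent.N397.AV

open Filter Topology Finset
open Pool.Agent.X278.AV Pool.Agent.X278.OP
open Pool.Agent.W189.ML (om om_nonneg)
open Pool.Agent.W401.Cheb (pr M mem_pr)
open Pool.Agent.H341R2 (lam)

/-- summation by parts -/
theorem abel {u d f : ℕ → ℝ} (h : ∀ n, 0 < n → |∑ i ∈ range n, u i| ≤ ∑ i ∈ range n, d i)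
    (hf : Antitone f) (hf0 : ∀ n, 0 ≤ f n) {n : ℕ} (hn : 0 < n) :
    |∑ i ∈ range n, f i * u i| ≤ ∑ i ∈ range n, f i * d i := by
  have e1 := Finset.sum_range_by_parts f u n
  have e2 := Finset.sum_range_by_parts f d n
  simp only [smul_eq_mul] at e1 e2
  rw [e1, e2]
  have h1 : |f (n - 1) * ∑ i ∈ range n, u i| ≤ f (n - 1) * ∑ i ∈ range n, d i := by
    rw [abs_mul, abs_of_nonneg (hf0 _)]
    exact mul_le_mul_of_nonneg_left (h n hn) (hf0 _)
  have h2 : |∑ i ∈ range (n - 1), (f (i + 1) - f i) * ∑ j ∈ range (i + 1), u j| ≤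
      -∑ i ∈ range (n - 1), (f (i + 1) - f i) * ∑ j ∈ range (i + 1), d j := by
    rw [← Finset.sum_neg_distrib]
    refine (Finset.abs_sum_le_sum_abs _ _).trans (Finset.sum_le_sum fun i _ => ?_)
    have h3 : f (i + 1) - f i ≤ 0 := sub_nonpos.2 (hf (Nat.le_succ i))
    rw [abs_mul, abs_of_nonpos h3, ← neg_mul]
    exact mul_le_mul_of_nonneg_left (h _ (Nat.succ_pos i)) (by linarith)
  have h3 := abs_sub (f (n - 1) * ∑ i ∈ range n, u i) (∑ i ∈ range (n - 1), (f (i + 1) - f i) * ∑ j ∈ range (i + 1), u j)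
  linarith

theorem pr_eq (N : ℕ) : pr N = (range (N + 1)).filter Nat.Prime := rfl

theorem card_pr (N : ℕ) : ((pr N).card : ℝ) = (Nat.primeCounting N : ℝ) := by
  rw [pr_eq, Nat.primeCounting, Nat.primeCounting', Nat.count_eq_card_filter_range]

theorem prime_bound {a : ℕ → ℝ} {κ K : ℝ} (hK : ∀ p : ℕ, p.Prime → |a p| ≤ K) (hM : Tendsto (M a) atTop (𝓝 κ))
    {η : ℝ} (hη : 0 < η) :
    ∃ K' : ℝ, 0 ≤ K' ∧ ∀ N : ℕ, |∑ i ∈ range N, (if i.Prime then a i - κ else 0)| ≤
      η * ∑ i ∈ range N, (if i.Prime then (1 : ℝ) else 0) + K' := by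
  have h1 : ∀ᶠ N : ℕ in atTop, |M a N - κ| < η := by
    have := (hM.sub_const κ).abs
    rw [sub_self, abs_zero] at this
    exact this.eventually_lt_const hη
  obtain ⟨N₀, hN₀⟩ := eventually_atTop.1 h1
  have hKκ : ∀ p : ℕ, p.Prime → |a p - κ| ≤ K + |κ| := fun p hp => (abs_sub _ _).trans (add_le_add_left (hK p hp) _)
  have hK0 : 0 ≤ K + |κ| := (abs_nonneg _).trans (hKκ 2 Nat.prime_two)
  refine ⟨(N₀ + 1) * (K + |κ|), by positivity, fun N => ?_⟩
  have hd : 0 ≤ ∑ i ∈ range N, (if i.Prime then (1 : ℝ) else 0) :=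
    Finset.sum_nonneg fun i _ => by split_ifs <;> norm_num
  rcases Nat.lt_or_ge N (N₀ + 1) with h | h
  · have h2 : |∑ i ∈ range N, (if i.Prime then a i - κ else 0)| ≤ N * (K + |κ|) := by
      refine (Finset.abs_sum_le_sum_abs _ _).trans ((Finset.sum_le_sum (g := fun _ => K + |κ|) fun i _ => ?_).trans ?_)
      · split_ifs with hp
        · exact hKκ i hp
        · rw [abs_zero]; exact hK0
      · rw [Finset.sum_const, Finset.card_range, nsmul_eq_mul]
    have h3 : (N : ℝ) ≤ N₀ + 1 := by exact_mod_cast h.le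
    have h4 : (N : ℝ) * (K + |κ|) ≤ (N₀ + 1) * (K + |κ|) := mul_le_mul_of_nonneg_right h3 hK0
    have h5 : 0 ≤ η * ∑ i ∈ range N, (if i.Prime then (1 : ℝ) else 0) := mul_nonneg hη.le hd
    linarith
  · obtain ⟨n, rfl⟩ : ∃ n, N = n + 1 := ⟨N - 1, by omega⟩
    have hn : N₀ ≤ n := by omega
    have h2 := hN₀ n hn
    have e1 : ∑ i ∈ range (n + 1), (if i.Prime then a i - κ else 0) = ∑ p ∈ pr n, (a p - κ) := by
      rw [pr_eq, Finset.sum_filter]
    have e2 : ∑ i ∈ range (n + 1), (if i.Prime then (1 : ℝ) else 0) = (Nat.primeCounting n : ℝ) := by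
      rw [← card_pr, pr_eq, Finset.card_filter]
      push_cast
      rfl
    rw [e1, e2, Finset.sum_sub_distrib, Finset.sum_const, nsmul_eq_mul, card_pr]
    have h6 : 0 ≤ (N₀ + 1) * (K + |κ|) := by positivity
    rcases Nat.eq_zero_or_pos (Nat.primeCounting n) with h7 | h7
    · have h8 : pr n = ∅ := by
        rw [← Finset.card_eq_zero]
        have := card_pr n
        rw [h7] at this
        exact_mod_cast this
      rw [h8, h7]
      simp only [Finset.sum_empty]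
      simpa using h6
    · have h8 : (0 : ℝ) < Nat.primeCounting n := by exact_mod_cast h7
      have h9 : ∑ p ∈ pr n, a p = (Nat.primeCounting n : ℝ) * M a n := by
        unfold M
        field_simp
      rw [h9, ← mul_sub, abs_mul, abs_of_pos h8]
      nlinarith

/-- the weights `n ^ (-1 - 1/T)` -/
noncomputable def fw (T : ℝ) (n : ℕ) : ℝ := ((max n 1 : ℕ) : ℝ) ^ (-(1 + 1 / T))

theorem fw_anti {T : ℝ} (hT : 0 < T) : Antitone (fw T) := by
  intro m n hmn
  unfold fw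
  apply Real.rpow_le_rpow_of_nonpos
  · exact_mod_cast (le_max_right m 1)
  · exact_mod_cast max_le_max_right 1 hmn
  · have : 0 < 1 / T := by positivity
    linarith

theorem fw_nonneg (T : ℝ) (n : ℕ) : 0 ≤ fw T n := by unfold fw; positivity

theorem fw_zero (T : ℝ) : fw T 0 = 1 := by unfold fw; simp

theorem fw_prime {T : ℝ} (hT : 0 < T) (p : Nat.Primes) : fw T p = (((p : ℕ) : ℝ))⁻¹ * xp T p ^ 1 := by
  rw [xp_pow hT p 1]
  unfold fw
  rw [max_eq_left p.2.one_le]
  push_cast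
  rfl

theorem primes_hasSum {g : ℕ → ℝ} {s : ℝ} (h : HasSum (fun p : Nat.Primes => g p) s) :
    HasSum (fun n : ℕ => if n.Prime then g n else 0) s := by
  have h1 : HasSum (g ∘ (Subtype.val : ({n : ℕ | n.Prime} : Set ℕ) → ℕ)) s := h
  rw [hasSum_subtype_iff_indicator] at h1
  have e1 : (fun n : ℕ => if n.Prime then g n else 0) = ({n : ℕ | n.Prime} : Set ℕ).indicator g := by
    funext n
    rw [Set.indicator_apply]
    rfl
  rw [e1]
  exact h1

theorem tsum_bound {a : ℕ → ℝ} {κ K η K' : ℝ} (hη : 0 ≤ η) (hK' : 0 ≤ K') (hK : ∀ p : ℕ, p.Prime → |a p| ≤ K)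
    (h : ∀ N : ℕ, |∑ i ∈ range N, (if i.Prime then a i - κ else 0)| ≤
      η * ∑ i ∈ range N, (if i.Prime then (1 : ℝ) else 0) + K') {T : ℝ} (hT : 0 < T) :
    (Summable fun p : Nat.Primes => (a p - κ) * ((((p : ℕ) : ℝ))⁻¹ * xp T p ^ 1)) ∧
    |∑' p : Nat.Primes, (a p - κ) * ((((p : ℕ) : ℝ))⁻¹ * xp T p ^ 1)| ≤ η * lam (1 / T) + K' := by
  obtain ⟨s1, e1⟩ := pow_sum hT one_pos
  have hKκ : ∀ p : ℕ, p.Prime → |a p - κ| ≤ K + |κ| := fun p hp => (abs_sub _ _).trans (add_le_add_left (hK p hp) _)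
  have hK0 : 0 ≤ K + |κ| := (abs_nonneg _).trans (hKκ 2 Nat.prime_two)
  have hnn : ∀ p : Nat.Primes, 0 ≤ (((p : ℕ) : ℝ))⁻¹ * xp T p ^ 1 := fun p => by
    obtain ⟨h0, -⟩ := xp_mem hT p
    positivity
  have hs : Summable fun p : Nat.Primes => (a p - κ) * ((((p : ℕ) : ℝ))⁻¹ * xp T p ^ 1) := by
    refine Summable.of_norm_bounded (s1.mul_left (K + |κ|)) fun p => ?_
    rw [norm_mul, Real.norm_eq_abs, Real.norm_of_nonneg (hnn p)]
    exact mul_le_mul_of_nonneg_right (hKκ p p.2) (hnn p)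
  refine ⟨hs, ?_⟩
  -- as sums over all naturals
  have e2 : ∀ p : Nat.Primes, (a p - κ) * ((((p : ℕ) : ℝ))⁻¹ * xp T p ^ 1) = fw T p * (a p - κ) := by
    intro p
    rw [fw_prime hT, mul_comm]
  have hU := primes_hasSum (g := fun n => fw T n * (a n - κ))
    (s := ∑' p : Nat.Primes, (a p - κ) * ((((p : ℕ) : ℝ))⁻¹ * xp T p ^ 1)) (by
      convert hs.hasSum using 1
      exact (funext e2).symm)
  have hV := primes_hasSum (g := fun n => fw T n) (s := ∑' p : Nat.Primes, (((p : ℕ) : ℝ))⁻¹ * xp T p ^ 1) (by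
      convert s1.hasSum using 1
      exact funext fun p => fw_prime hT p)
  rw [e1] at hV
  have hUt := hU.tendsto_sum_nat.abs
  have hVle : ∀ n : ℕ, ∑ i ∈ range n, (if i.Prime then fw T i else 0) ≤ lam ((1 : ℕ) / T) := fun n =>
    sum_le_hasSum _ (fun i _ => by split_ifs; exacts [fw_nonneg _ _, le_rfl]) hV
  refine le_of_tendsto hUt ?_
  filter_upwards [eventually_gt_atTop 0] with n hn
  have h1 := abel (u := fun i => if i.Prime then a i - κ else 0)
    (d := fun i => η * (if i.Prime then (1 : ℝ) else 0) + (if i = 0 then K' else 0)) (f := fw T) (fun m hm => by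
      rw [Finset.sum_add_distrib, ← Finset.mul_sum, Finset.sum_ite_eq' (range m) 0 (fun _ => K'),
        if_pos (Finset.mem_range.2 hm)]
      exact h m) (fw_anti hT) (fw_nonneg T) hn
  have e3 : ∀ i, fw T i * (if i.Prime then a i - κ else 0) = if i.Prime then fw T i * (a i - κ) else 0 := by
    intro i
    split_ifs <;> simp
  have e4 : ∀ i, fw T i * (η * (if i.Prime then (1 : ℝ) else 0) + (if i = 0 then K' else 0)) =
      η * (if i.Prime then fw T i else 0) + (if i = 0 then fw T 0 * K' else 0) := by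
    intro i
    by_cases h0 : i = 0
    · subst h0
      simp [Nat.not_prime_zero]
    · rw [if_neg h0, if_neg h0]
      split_ifs <;> ring
  simp only [e3, e4] at h1
  rw [Finset.sum_add_distrib, ← Finset.mul_sum, Finset.sum_ite_eq' (range n) 0 (fun _ => fw T 0 * K'),
    if_pos (Finset.mem_range.2 hn), fw_zero, one_mul] at h1
  refine h1.trans ?_
  have h2 := mul_le_mul_of_nonneg_left (hVle n) hη
  push_cast at h2
  linarith

/-- the remainder function of a weight -/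
theorem kar_h {ω : ℝ → ℝ} {ω' : ℝ} (h0 : ω 0 = 1) (hd : HasDerivAt ω ω' 0) (hc : ∀ u : ℝ, 0 < u → ContinuousAt ω u)
    (hdec : Tendsto (fun u => ω u * Real.exp u) atTop (𝓝 0)) :
    ∃ (h : ℝ → ℝ) (Mh : ℝ), (∀ x ∈ Set.Icc (0 : ℝ) 1, |h x| ≤ Mh) ∧ ∀ T : ℝ, 0 < T → ∀ p : Nat.Primes,
      (((p : ℕ) : ℝ))⁻¹ * ω (Real.log (p : ℕ) / T) =
        (((p : ℕ) : ℝ))⁻¹ * xp T p ^ 1 + (((p : ℕ) : ℝ))⁻¹ * ((xp T p - xp T p ^ 2) * h (xp T p)) := by
  set h : ℝ → ℝ := fun x => if x = 0 then -1 else if x = 1 then 1 + ω' else (ω (-Real.log x) - x) / (x - x ^ 2)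
    with hh
  have hform : ∀ x : ℝ, 0 < x → x < 1 → h x = (ω (-Real.log x) - x) / (x - x ^ 2) := by
    intro x hx0 hx1
    rw [hh]
    simp only
    rw [if_neg hx0.ne', if_neg hx1.ne]
  have hcont : ContinuousOn h (Set.Icc 0 1) := by
    intro x hx
    rcases eq_or_lt_of_le hx.1 with rfl | hx0
    · -- at zero
      have h1 : ContinuousWithinAt h (Set.Ioi 0) 0 := by
        have e0 : h 0 = -1 := by rw [hh]; simp
        unfold ContinuousWithinAt
        rw [e0]
        have h2 : Tendsto (fun x : ℝ => -Real.log x) (𝓝[>] 0) atTop :=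
          tendsto_neg_atBot_atTop.comp Real.tendsto_log_nhdsGT_zero
        have h3 := hdec.comp h2
        have h4 : Tendsto (fun x : ℝ => x) (𝓝[>] (0 : ℝ)) (𝓝 0) := tendsto_id.mono_left nhdsWithin_le_nhds
        have h5 := (h3.sub_const 1).div (h4.const_sub 1) (by norm_num)
        have e1 : ((0 : ℝ) - 1) / (1 - 0) = -1 := by norm_num
        rw [e1] at h5
        refine h5.congr' ?_
        filter_upwards [Ioo_mem_nhdsGT (show (0 : ℝ) < 1 by norm_num)] with x hx
        rw [hform x hx.1 hx.2]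
        simp only [Function.comp_apply, Pi.div_apply]
        rw [Real.exp_neg, Real.exp_log hx.1]
        have h6 : x ≠ 0 := hx.1.ne'
        have h7 : 1 - x ≠ 0 := by linarith [hx.2]
        have h8 : x - x ^ 2 = x * (1 - x) := by ring
        rw [h8]
        field_simp
      rw [continuousWithinAt_Ioi_iff_Ici] at h1
      exact h1.mono Set.Icc_subset_Ici_self
    rcases eq_or_lt_of_le hx.2 with rfl | hx1
    · -- at one
      have h1 : ContinuousWithinAt h (Set.Iio 1) 1 := by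
        have e0 : h 1 = 1 + ω' := by rw [hh]; simp
        unfold ContinuousWithinAt
        rw [e0]
        have h2 : HasDerivAt (fun x : ℝ => ω (-Real.log x)) (-ω') 1 := by
          have h3 : HasDerivAt (fun x : ℝ => -Real.log x) (-1) 1 := by
            have := (Real.hasDerivAt_log (one_ne_zero (α := ℝ))).neg
            rwa [inv_one] at this
          have h4 : HasDerivAt ω ω' (-Real.log 1) := by rwa [Real.log_one, neg_zero]
          have h5 := HasDerivAt.comp (1 : ℝ) h4 h3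
          rw [mul_neg, mul_one] at h5
          exact h5
        rw [hasDerivAt_iff_tendsto_slope] at h2
        have h3 : Tendsto (slope (fun x : ℝ => ω (-Real.log x)) 1) (𝓝[<] 1) (𝓝 (-ω')) :=
          h2.mono_left (nhdsWithin_mono _ fun x hx => ne_of_lt hx)
        have h4 : Tendsto (fun x : ℝ => x) (𝓝[<] (1 : ℝ)) (𝓝 1) := tendsto_id.mono_left nhdsWithin_le_nhds
        have h5 := (h3.neg.const_add 1).div h4 (by norm_num)
        rw [neg_neg, div_one] at h5
        refine h5.congr' ?_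
        filter_upwards [Ioo_mem_nhdsLT (show (0 : ℝ) < 1 by norm_num)] with x hx
        rw [hform x hx.1 hx.2]
        simp only [Pi.div_apply]
        rw [slope_def_field, Real.log_one, neg_zero, h0]
        have h6 : x ≠ 0 := hx.1.ne'
        have h7 : 1 - x ≠ 0 := by linarith [hx.2]
        have h7' : x - 1 ≠ 0 := by linarith [hx.2]
        have h8 : x - x ^ 2 = x * (1 - x) := by ring
        rw [h8]
        field_simp
        ring
      rw [continuousWithinAt_Iio_iff_Iic] at h1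
      exact h1.mono Set.Icc_subset_Iic_self
    · -- inside
      have h1 : ContinuousAt (fun x : ℝ => (ω (-Real.log x) - x) / (x - x ^ 2)) x := by
        have h2 : ContinuousAt (fun x : ℝ => ω (-Real.log x)) x := by
          have h3 : 0 < -Real.log x := by
            have := Real.log_neg hx0 hx1
            linarith
          exact ContinuousAt.comp (f := fun x : ℝ => -Real.log x) (hc _ h3) (Real.continuousAt_log hx0.ne').neg
        refine (h2.sub continuousAt_id).div (by fun_prop) ?_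
        have : 0 < x * (1 - x) := mul_pos hx0 (by linarith)
        nlinarith
      refine (h1.congr ?_).continuousWithinAt
      filter_upwards [Ioo_mem_nhds hx0 hx1] with y hy
      exact (hform y hy.1 hy.2).symm
  obtain ⟨Mh, hMh⟩ := isCompact_Icc.exists_bound_of_continuousOn hcont
  have hMh' : ∀ x ∈ Set.Icc (0 : ℝ) 1, |h x| ≤ Mh := fun x hx => by simpa using hMh x hx
  have key : ∀ T : ℝ, 0 < T → ∀ p : Nat.Primes, (((p : ℕ) : ℝ))⁻¹ * ω (Real.log (p : ℕ) / T) =
      (((p : ℕ) : ℝ))⁻¹ * xp T p ^ 1 + (((p : ℕ) : ℝ))⁻¹ * ((xp T p - xp T p ^ 2) * h (xp T p)) := by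
    intro T hT p
    obtain ⟨a0, a1⟩ := xp_mem hT p
    rw [hform _ a0 a1]
    have e1 : -Real.log (xp T p) = Real.log (p : ℕ) / T := by
      unfold xp
      rw [Real.log_exp, neg_neg]
    rw [e1]
    have h2 : xp T p - xp T p ^ 2 ≠ 0 := by
      have : 0 < xp T p * (1 - xp T p) := mul_pos a0 (by linarith)
      nlinarith
    rw [mul_comm (xp T p - xp T p ^ 2), div_mul_cancel₀ _ h2]
    ring
  exact ⟨h, Mh, hMh', key⟩

/-- **weighted sums over the primes of bounded coefficients with a natural mean value** -/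
theorem kar_mean {ω : ℝ → ℝ} {ω' : ℝ} (h0 : ω 0 = 1) (hd : HasDerivAt ω ω' 0) (hc : ∀ u : ℝ, 0 < u → ContinuousAt ω u)
    (hdec : Tendsto (fun u => ω u * Real.exp u) atTop (𝓝 0)) {a : ℕ → ℝ} {κ K : ℝ}
    (hK : ∀ p : ℕ, p.Prime → |a p| ≤ K) (hM : Tendsto (M a) atTop (𝓝 κ)) :
    (∀ T : ℝ, 0 < T → Summable fun p : Nat.Primes => a p * ((((p : ℕ) : ℝ))⁻¹ * ω (Real.log (p : ℕ) / T))) ∧
    Tendsto (fun T : ℝ => (∑' p : Nat.Primes, a p * ((((p : ℕ) : ℝ))⁻¹ * ω (Real.log (p : ℕ) / T))) / Real.log T)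
      atTop (𝓝 κ) := by
  obtain ⟨sω, c, hcl⟩ := kar h0 hd hc hdec
  obtain ⟨h, Mh, hMh, key⟩ := kar_h h0 hd hc hdec
  have hKκ : ∀ p : ℕ, p.Prime → |a p - κ| ≤ K + |κ| := fun p hp => (abs_sub _ _).trans (add_le_add_left (hK p hp) _)
  have hK0 : 0 ≤ K + |κ| := (abs_nonneg _).trans (hKκ 2 Nat.prime_two)
  have hMh0 : 0 ≤ Mh := (abs_nonneg _).trans (hMh 0 ⟨le_rfl, zero_le_one⟩)
  -- the third part
  have hthird : ∀ T : ℝ, 0 < T → (Summable fun p : Nat.Primes => (a p - κ) * ((((p : ℕ) : ℝ))⁻¹ *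
      ((xp T p - xp T p ^ 2) * h (xp T p)))) ∧ |∑' p : Nat.Primes, (a p - κ) * ((((p : ℕ) : ℝ))⁻¹ *
      ((xp T p - xp T p ^ 2) * h (xp T p)))| ≤ (K + |κ|) * Mh * Phi T (fun _ => 1) := by
    intro T hT
    have hs1 := Phi_sum hT (h := fun _ => (1 : ℝ)) (M := 1) (fun x _ => by simp)
    have hb : ∀ p : Nat.Primes, ‖(a p - κ) * ((((p : ℕ) : ℝ))⁻¹ * ((xp T p - xp T p ^ 2) * h (xp T p)))‖ ≤
        (K + |κ|) * Mh * ((((p : ℕ) : ℝ))⁻¹ * ((xp T p - xp T p ^ 2) * 1)) := by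
      intro p
      obtain ⟨b0, b1⟩ := xp_mem hT p
      have h3 : 0 ≤ xp T p - xp T p ^ 2 := by nlinarith
      have hp0 : (0 : ℝ) < (p : ℕ) := by exact_mod_cast p.2.pos
      rw [Real.norm_eq_abs, abs_mul, abs_mul, abs_mul, abs_of_nonneg h3, abs_of_pos (by positivity : 0 < (((p : ℕ) : ℝ))⁻¹)]
      calc |a p - κ| * ((((p : ℕ) : ℝ))⁻¹ * ((xp T p - xp T p ^ 2) * |h (xp T p)|)) ≤
          (K + |κ|) * ((((p : ℕ) : ℝ))⁻¹ * ((xp T p - xp T p ^ 2) * Mh)) := by
            have g1 := hKκ p p.2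
            have g2 := hMh (xp T p) ⟨b0.le, b1.le⟩
            gcongr
        _ = _ := by ring
    refine ⟨Summable.of_norm_bounded (hs1.mul_left _) hb, ?_⟩
    rw [← Real.norm_eq_abs]
    refine (tsum_of_norm_bounded (hs1.mul_left ((K + |κ|) * Mh)).hasSum hb).trans (le_of_eq ?_)
    rw [tsum_mul_left]
    rfl
  have hsum2 : ∀ T : ℝ, 0 < T → Summable fun p : Nat.Primes => (a p - κ) * ((((p : ℕ) : ℝ))⁻¹ * xp T p ^ 1) := by
    intro T hT
    obtain ⟨K', hK', hb⟩ := prime_bound hK hM one_pos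
    exact (tsum_bound zero_le_one hK' hK hb hT).1
  have hdec3 : ∀ T : ℝ, 0 < T → ∀ p : Nat.Primes, a p * ((((p : ℕ) : ℝ))⁻¹ * ω (Real.log (p : ℕ) / T)) =
      κ * ((((p : ℕ) : ℝ))⁻¹ * ω (Real.log (p : ℕ) / T)) + ((a p - κ) * ((((p : ℕ) : ℝ))⁻¹ * xp T p ^ 1) +
        (a p - κ) * ((((p : ℕ) : ℝ))⁻¹ * ((xp T p - xp T p ^ 2) * h (xp T p)))) := by
    intro T hT p
    rw [← mul_add, ← key T hT p]
    ring
  have hsall : ∀ T : ℝ, 0 < T → Summable fun p : Nat.Primes => a p * ((((p : ℕ) : ℝ))⁻¹ * ω (Real.log (p : ℕ) / T)) := by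
    intro T hT
    exact (((sω T hT).mul_left κ).add ((hsum2 T hT).add (hthird T hT).1)).congr fun p => (hdec3 T hT p).symm
  refine ⟨hsall, ?_⟩
  have hval : ∀ T : ℝ, 0 < T → ∑' p : Nat.Primes, a p * ((((p : ℕ) : ℝ))⁻¹ * ω (Real.log (p : ℕ) / T)) =
      κ * (∑' p : Nat.Primes, (((p : ℕ) : ℝ))⁻¹ * ω (Real.log (p : ℕ) / T)) +
      (∑' p : Nat.Primes, (a p - κ) * ((((p : ℕ) : ℝ))⁻¹ * xp T p ^ 1) +
       ∑' p : Nat.Primes, (a p - κ) * ((((p : ℕ) : ℝ))⁻¹ * ((xp T p - xp T p ^ 2) * h (xp T p)))) := by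
    intro T hT
    rw [tsum_congr (hdec3 T hT), ((sω T hT).mul_left κ).tsum_add ((hsum2 T hT).add (hthird T hT).1),
      (hsum2 T hT).tsum_add (hthird T hT).1, tsum_mul_left]
  obtain ⟨c', hc'⟩ := lam_T
  have hlam := hc' 1 one_pos
  rw [Metric.tendsto_atTop]
  intro ε hε
  obtain ⟨K', hK', hb⟩ := prime_bound hK hM (show 0 < ε / 4 by positivity)
  have hW := (hcl.sub_const c).abs
  rw [sub_self, abs_zero] at hW
  have hL := (hlam.sub_const (c' - Real.log 1)).abs
  rw [sub_self, abs_zero] at hL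
  set R : ℝ := |κ| * (|c| + 1) + ε / 4 * (|c' - Real.log 1| + 1) + K' + (K + |κ|) * Mh with hR
  have hR0 : 0 ≤ R := by positivity
  have hlogT : Tendsto Real.log atTop atTop := Real.tendsto_log_atTop
  obtain ⟨T₀, hT₀⟩ := eventually_atTop.1 ((hW.eventually_lt_const one_pos).and ((hL.eventually_lt_const one_pos).and
    (Phi_one.and ((eventually_gt_atTop (0 : ℝ)).and (hlogT.eventually_gt_atTop (max 0 (4 * R / ε)))))))
  refine ⟨T₀, fun T hT => ?_⟩
  obtain ⟨a1, a2, a3, a4, a5⟩ := hT₀ T hT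
  have hlp : 0 < Real.log T := (le_max_left _ _).trans_lt a5
  have hlR : 4 * R / ε < Real.log T := (le_max_right _ _).trans_lt a5
  rw [Real.dist_eq]
  obtain ⟨-, b2⟩ := tsum_bound (by positivity) hK' hK hb a4
  obtain ⟨-, b3⟩ := hthird T a4
  set W : ℝ := ∑' p : Nat.Primes, (((p : ℕ) : ℝ))⁻¹ * ω (Real.log (p : ℕ) / T) with hWd
  set R2 : ℝ := ∑' p : Nat.Primes, (a p - κ) * ((((p : ℕ) : ℝ))⁻¹ * xp T p ^ 1) with hR2
  set R3 : ℝ := ∑' p : Nat.Primes, (a p - κ) * ((((p : ℕ) : ℝ))⁻¹ * ((xp T p - xp T p ^ 2) * h (xp T p))) with hR3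
  have e1 : (∑' p : Nat.Primes, a p * ((((p : ℕ) : ℝ))⁻¹ * ω (Real.log (p : ℕ) / T))) / Real.log T - κ =
      (κ * (W - Real.log T) + R2 + R3) / Real.log T := by
    rw [hval T a4, ← hWd, ← hR2, ← hR3]
    field_simp
    ring
  rw [e1, abs_div, abs_of_pos hlp, div_lt_iff₀ hlp]
  have g1 : |κ * (W - Real.log T)| ≤ |κ| * (|c| + 1) := by
    rw [abs_mul]
    apply mul_le_mul_of_nonneg_left _ (abs_nonneg κ)
    have e2 : W - Real.log T = (W - Real.log T - c) + c := by ring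
    rw [e2]
    refine (abs_add_le _ _).trans ?_
    linarith
  have g2 : lam (1 / T) ≤ Real.log T + (|c' - Real.log 1| + 1) := by
    have h5 := (abs_lt.1 a2).2
    have h6 := le_abs_self (c' - Real.log 1)
    linarith
  have g3 : ε / 4 * lam (1 / T) ≤ ε / 4 * (Real.log T + (|c' - Real.log 1| + 1)) :=
    mul_le_mul_of_nonneg_left g2 (by positivity)
  have g4 : (K + |κ|) * Mh * Phi T (fun _ => 1) ≤ (K + |κ|) * Mh := by
    have : 0 ≤ (K + |κ|) * Mh := by positivity
    nlinarith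
  have g5 : |κ * (W - Real.log T) + R2 + R3| ≤ ε / 4 * Real.log T + R := by
    refine (abs_add_le _ _).trans ((add_le_add_left (abs_add_le _ _) _).trans ?_)
    rw [hR]
    nlinarith
  have g6 : R < ε / 4 * Real.log T := by
    rw [div_lt_iff₀ hε] at hlR
    linarith
  nlinarith

end Pool.Agent.N397.AV
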