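import Pool.Agent.N397.AV.PDep

/-!
# Products over the primes with local factors depending on the prime
-/

set_option autoImplicit false

namespace Pool.Agent.N397.AV

open Filter Topology Finset
open Pool.Agent.X278.AV Pool.Agent.X278.OP
open Pool.Agent.W189.ML (om om_nonneg)
open Pool.Agent.W401.Cheb (pr M mem_pr)

theorem kar_mean_one (γ : ℝ) {a : ℕ → ℝ} {κ K : ℝ} (hK : ∀ p : ℕ, p.Prime → |a p| ≤ K) (hM : Tendsto (M a) atTop (𝓝 κ)) :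
    (∀ T : ℝ, 0 < T → Summable fun p : Nat.Primes => a p * ((((p : ℕ) : ℝ))⁻¹ * wr γ (Real.log (p : ℕ) / T))) ∧
    Tendsto (fun T : ℝ => (∑' p : Nat.Primes, a p * ((((p : ℕ) : ℝ))⁻¹ * wr γ (Real.log (p : ℕ) / T))) / Real.log T)
      atTop (𝓝 κ) :=
  kar_mean (wr_zero γ) (wr_diff γ le_rfl).hasDerivAt (fun u hu => (wr_diff γ hu.le).continuousAt) (wr_dec γ) hK hM

theorem kar_mean_two (γ : ℝ) {a : ℕ → ℝ} {κ K : ℝ} (hK : ∀ p : ℕ, p.Prime → |a p| ≤ K) (hM : Tendsto (M a) atTop (𝓝 κ)) :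
    (∀ T : ℝ, 0 < T → Summable fun p : Nat.Primes => a p * ((((p : ℕ) : ℝ))⁻¹ * wr γ (Real.log (p : ℕ) / T) ^ 2)) ∧
    Tendsto (fun T : ℝ => (∑' p : Nat.Primes, a p * ((((p : ℕ) : ℝ))⁻¹ * wr γ (Real.log (p : ℕ) / T) ^ 2)) / Real.log T)
      atTop (𝓝 κ) := by
  refine kar_mean (ω := fun u => wr γ u ^ 2) (by simp [wr_zero]) ((wr_diff γ le_rfl).pow 2).hasDerivAt
    (fun u hu => ((wr_diff γ hu.le).pow 2).continuousAt) ?_ hK hM
  have h1 := wr_dec γ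
  have h2 : Tendsto (fun u => (Real.exp 1 + 1) * |wr γ u * Real.exp u|) atTop (𝓝 0) := by
    have := (h1.abs).const_mul (Real.exp 1 + 1)
    rwa [abs_zero, mul_zero] at this
  refine squeeze_zero_norm' ?_ h2
  filter_upwards [eventually_ge_atTop (0 : ℝ)] with u hu
  have h3 := wr_bd γ hu
  rw [Real.norm_eq_abs, pow_two, mul_assoc, abs_mul]
  gcongr

/-- **products with weights, local factors depending on the prime** -/
theorem prod_log (γ : ℝ) {A B : ℕ → ℝ} {α β K₀ : ℝ} (hA : ∀ p : ℕ, p.Prime → |A p| ≤ K₀)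
    (hB : ∀ p : ℕ, p.Prime → |B p| ≤ K₀) (mA : Tendsto (M A) atTop (𝓝 α)) (mB : Tendsto (M B) atTop (𝓝 β))
    {φ : Nat.Primes → ℝ → ℝ} (hpos : ∀ p x, 0 < φ p x)
    (hexp : ∀ K : ℝ, ∃ C : ℝ, ∀ (p : Nat.Primes) (x : ℝ), |x| ≤ K →
      |Real.log (φ p x) - (A p * x + B p * x ^ 2) / (p : ℕ)| ≤ C / (√((p : ℕ) : ℝ) * (p : ℕ))) (k : ℝ) :
    (∀ T : ℝ, 0 < T → 0 < ∏' p : Nat.Primes, φ p (k * wr γ (Real.log (p : ℕ) / T))) ∧
    Tendsto (fun T : ℝ => Real.log (∏' p : Nat.Primes, φ p (k * wr γ (Real.log (p : ℕ) / T))) / Real.log T) atTop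
      (𝓝 (α * k + β * k ^ 2)) := by
  obtain ⟨s1, l1⟩ := kar_mean_one γ hA mA
  obtain ⟨s2, l2⟩ := kar_mean_two γ hB mB
  obtain ⟨C, hC⟩ := hexp (|k| * (Real.exp 1 + 1))
  have hkw : ∀ (T : ℝ), 0 < T → ∀ p : Nat.Primes, |k * wr γ (Real.log (p : ℕ) / T)| ≤ |k| * (Real.exp 1 + 1) := by
    intro T hT p
    rw [abs_mul]
    have hu : 0 ≤ Real.log (p : ℕ) / T := div_nonneg (Real.log_nonneg (by exact_mod_cast p.2.one_le)) hT.le
    gcongr
    exact wr_bd γ hu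
  set ρ : ℝ → Nat.Primes → ℝ := fun T p => Real.log (φ p (k * wr γ (Real.log (p : ℕ) / T))) -
    (A p * (k * wr γ (Real.log (p : ℕ) / T)) + B p * (k * wr γ (Real.log (p : ℕ) / T)) ^ 2) / (p : ℕ) with hρ
  have hρb : ∀ T : ℝ, 0 < T → ∀ p, ‖ρ T p‖ ≤ C / (√((p : ℕ) : ℝ) * (p : ℕ)) := fun T hT p => by
    rw [Real.norm_eq_abs]
    exact hC p _ (hkw T hT p)
  have hρs : ∀ T : ℝ, 0 < T → Summable (ρ T) := fun T hT => Summable.of_norm_bounded (sum_32 (C := C)) (hρb T hT)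
  have hlogs : ∀ T : ℝ, 0 < T → Summable (fun p : Nat.Primes => Real.log (φ p (k * wr γ (Real.log (p : ℕ) / T)))) ∧
      ∑' p : Nat.Primes, Real.log (φ p (k * wr γ (Real.log (p : ℕ) / T))) =
        k * ∑' p : Nat.Primes, A p * ((((p : ℕ) : ℝ))⁻¹ * wr γ (Real.log (p : ℕ) / T)) +
        k ^ 2 * ∑' p : Nat.Primes, B p * ((((p : ℕ) : ℝ))⁻¹ * wr γ (Real.log (p : ℕ) / T) ^ 2) + ∑' p, ρ T p := by
    intro T hT
    have e1 : ∀ p : Nat.Primes, Real.log (φ p (k * wr γ (Real.log (p : ℕ) / T))) =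
        k * (A p * ((((p : ℕ) : ℝ))⁻¹ * wr γ (Real.log (p : ℕ) / T))) +
        k ^ 2 * (B p * ((((p : ℕ) : ℝ))⁻¹ * wr γ (Real.log (p : ℕ) / T) ^ 2)) + ρ T p := by
      intro p
      rw [hρ]
      simp only
      ring
    have t1 := (s1 T hT).mul_left k
    have t2 := (s2 T hT).mul_left (k ^ 2)
    constructor
    · exact ((t1.add t2).add (hρs T hT)).congr fun p => (e1 p).symm
    · rw [tsum_congr e1, (t1.add t2).tsum_add (hρs T hT), t1.tsum_add t2, tsum_mul_left, tsum_mul_left]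
  have hlogM : ∀ T : ℝ, 0 < T → ∏' p : Nat.Primes, φ p (k * wr γ (Real.log (p : ℕ) / T)) =
      Real.exp (∑' p : Nat.Primes, Real.log (φ p (k * wr γ (Real.log (p : ℕ) / T)))) := fun T hT =>
    (Real.rexp_tsum_eq_tprod (fun p => hpos p _) (hlogs T hT).1).symm
  constructor
  · intro T hT
    rw [hlogM T hT]
    exact Real.exp_pos _
  · have h3 : Tendsto (fun T : ℝ => (∑' p, ρ T p) / Real.log T) atTop (𝓝 0) := by
      set R : ℝ := ∑' p : Nat.Primes, C / (√((p : ℕ) : ℝ) * (p : ℕ)) with hR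
      have h4 : Tendsto (fun T : ℝ => R / Real.log T) atTop (𝓝 0) :=
        tendsto_const_nhds.div_atTop Real.tendsto_log_atTop
      refine squeeze_zero_norm' ?_ h4
      filter_upwards [eventually_gt_atTop (1 : ℝ)] with T hT
      have hl : 0 < Real.log T := Real.log_pos hT
      rw [norm_div, Real.norm_of_nonneg hl.le]
      gcongr
      exact tsum_of_norm_bounded (sum_32 (C := C)).hasSum (hρb T (by linarith))
    have h5 := ((l1.const_mul k).add (l2.const_mul (k ^ 2))).add h3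
    have e1 : α * k + β * k ^ 2 = k * α + k ^ 2 * β + 0 := by ring
    rw [e1]
    refine h5.congr' ?_
    filter_upwards [eventually_gt_atTop (0 : ℝ)] with T hT
    rw [hlogM T hT, Real.log_exp, (hlogs T hT).2]
    ring

section

variable {k : ℕ} {s : ℕ} {Y : (p : Nat.Primes) → (Fin k → ZMod p) → ℝ} {B : ℝ}

/-- **the expansion of the local factor** -/
theorem ph_exp_dep (hk : 0 < k) (hs : k ≤ s) (hY0 : ∀ p, Y p 0 = 0) (hB : 0 ≤ B) (hY : ∀ p r, |Y p r| ≤ B / √((p : ℕ) : ℝ))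
    {κ₀ v₀ : ℕ → ℝ} {C K₀ : ℝ} (hC : 0 ≤ C) (hκ₀ : ∀ p : ℕ, p.Prime → |κ₀ p| ≤ K₀) (hv₀ : ∀ p : ℕ, p.Prime → |v₀ p| ≤ K₀)
    (h1 : ∀ p : Nat.Primes, |Ex s (p : ℕ) (Y p) - κ₀ p / (p : ℕ)| ≤ C / (√((p : ℕ) : ℝ) * (p : ℕ)))
    (h2 : ∀ p : Nat.Primes, |Ex s (p : ℕ) (fun r => Y p r ^ 2) - v₀ p / (p : ℕ)| ≤ C / (√((p : ℕ) : ℝ) * (p : ℕ))) (K : ℝ) :
    ∃ C' : ℝ, ∀ (p : Nat.Primes) (x : ℝ), |x| ≤ K →
      |Real.log (ph s Y p x) - (κ₀ p * x + v₀ p / 2 * x ^ 2) / (p : ℕ)| ≤ C' / (√((p : ℕ) : ℝ) * (p : ℕ)) := by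
  rcases lt_or_ge K 0 with hK | hK
  · exact ⟨0, fun p x hx => absurd ((abs_nonneg x).trans hx) (not_le.2 hK)⟩
  set L : ℝ := 1 / 2 * Real.exp (-(K * B)) with hL
  have hL0 : 0 < L := by positivity
  set E : ℝ := Real.exp (K * B) with hE
  set C₁ : ℝ := K * C + K ^ 2 * C + 2 * (K ^ 3 * B ^ 3 * E) with hC₁
  set D₁ : ℝ := K₀ * K + K₀ * K ^ 2 with hD₁
  have hK₀ : 0 ≤ K₀ := (abs_nonneg _).trans (hκ₀ 2 Nat.prime_two)
  refine ⟨C₁ + (C₁ + D₁) ^ 2 / L, fun p x hx => ?_⟩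
  have hp0 : (0 : ℝ) < (p : ℕ) := by exact_mod_cast p.2.pos
  have k1 := hκ₀ p p.2
  have k2 := hv₀ p p.2
  set κ : ℝ := κ₀ p with hκ
  set v : ℝ := v₀ p with hv
  obtain ⟨d0, d1, d2⟩ := de_facts p
  set δ : ℝ := (√((p : ℕ) : ℝ))⁻¹ with hδ
  have hδ3 : ∀ c : ℝ, c / (√((p : ℕ) : ℝ) * (p : ℕ)) = c * δ ^ 3 := by
    intro c
    have : δ ^ 3 = δ * δ ^ 2 := by ring
    rw [this, d2, hδ]
    field_simp
  have hδ2 : ∀ c : ℝ, c / ((p : ℕ) : ℝ) = c * δ ^ 2 := by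
    intro c
    rw [d2]
    ring
  have hx0 := abs_nonneg x
  have hs1 : 1 ≤ s := hk.trans_le hs
  set y : ℝ := Ex s (p : ℕ) (fun r => Real.exp (x * Y p r) - 1) with hy
  have hφ : ph s Y p x = 1 + y := rfl
  have hlow : L ≤ 1 + y := by
    rw [← hφ]
    exact ph_lower hk hs hY0 hB hY hx p
  -- the remainder
  have hrem : ∀ r, |Real.exp (x * Y p r) - 1 - x * Y p r - (x * Y p r) ^ 2 / 2| ≤ K ^ 3 * B ^ 3 * E * δ ^ 3 := by
    intro r
    have g1 : |x * Y p r| ≤ K * (B * δ) := by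
      rw [abs_mul]
      have := hY p r
      rw [div_eq_mul_inv] at this
      exact mul_le_mul hx this (abs_nonneg _) hK
    have g2 : |x * Y p r| ≤ K * B := g1.trans (by
      apply mul_le_mul_of_nonneg_left _ hK
      nlinarith)
    refine (exp_rem _).trans ?_
    calc |x * Y p r| ^ 3 * Real.exp |x * Y p r| ≤ (K * (B * δ)) ^ 3 * E := by
          gcongr
          exact Real.exp_le_exp.2 g2
      _ = _ := by ring
  have e1 : y = x * Ex s (p : ℕ) (Y p) + x ^ 2 / 2 * Ex s (p : ℕ) (fun r => Y p r ^ 2) +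
      Ex s (p : ℕ) (fun r => Real.exp (x * Y p r) - 1 - x * Y p r - (x * Y p r) ^ 2 / 2) := by
    rw [hy, ← Ex_mul_left, ← Ex_mul_left, ← Ex_add, ← Ex_add]
    congr 1
    funext r
    ring
  have h3 : |y - (κ * x + v / 2 * x ^ 2) / (p : ℕ)| ≤ C₁ * δ ^ 3 := by
    have g1 := h1 p
    have g2 := h2 p
    rw [hδ3] at g1 g2
    have g3 := Ex_abs_le (s := s) hs1 p.2.two_le hrem
    have e2 : y - (κ * x + v / 2 * x ^ 2) / (p : ℕ) = x * (Ex s (p : ℕ) (Y p) - κ / (p : ℕ)) +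
        x ^ 2 / 2 * (Ex s (p : ℕ) (fun r => Y p r ^ 2) - v / (p : ℕ)) +
        Ex s (p : ℕ) (fun r => Real.exp (x * Y p r) - 1 - x * Y p r - (x * Y p r) ^ 2 / 2) := by
      rw [e1]
      ring
    rw [e2]
    refine (abs_add_le _ _).trans ((add_le_add ((abs_add_le _ _).trans (le_refl _)) g3).trans ?_)
    rw [abs_mul, abs_mul, abs_of_nonneg (by positivity : 0 ≤ x ^ 2 / 2)]
    have hx2 : x ^ 2 ≤ K ^ 2 := by
      rw [← sq_abs x]
      exact pow_le_pow_left₀ hx0 hx 2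
    have g4 : |x| * |Ex s (p : ℕ) (Y p) - κ / (p : ℕ)| ≤ K * (C * δ ^ 3) :=
      mul_le_mul hx g1 (abs_nonneg _) hK
    have g5 : x ^ 2 / 2 * |Ex s (p : ℕ) (fun r => Y p r ^ 2) - v / (p : ℕ)| ≤ K ^ 2 * (C * δ ^ 3) :=
      mul_le_mul (by nlinarith [sq_nonneg K]) g2 (abs_nonneg _) (by positivity)
    rw [hC₁]
    nlinarith
  have h4 : |(κ * x + v / 2 * x ^ 2) / (p : ℕ)| ≤ D₁ * δ ^ 2 := by
    rw [hδ2, abs_mul, abs_of_nonneg (by positivity : 0 ≤ δ ^ 2)]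
    have : |κ * x + v / 2 * x ^ 2| ≤ D₁ := by
      refine (abs_add_le _ _).trans ?_
      rw [abs_mul, abs_mul, abs_div, abs_of_pos (by norm_num : (0 : ℝ) < 2), abs_of_nonneg (sq_nonneg x)]
      have hx2 : x ^ 2 ≤ K ^ 2 := by
        rw [← sq_abs x]
        exact pow_le_pow_left₀ hx0 hx 2
      have g1 : |κ| * |x| ≤ K₀ * K := mul_le_mul k1 hx (abs_nonneg _) hK₀
      have g2 : |v| / 2 * x ^ 2 ≤ K₀ * K ^ 2 := by
        have := mul_le_mul k2 hx2 (sq_nonneg _) hK₀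
        nlinarith [abs_nonneg v, sq_nonneg x, mul_nonneg (abs_nonneg v) (sq_nonneg x)]
      linarith
    gcongr
  rw [hφ, hδ3]
  have hC₁0 : 0 ≤ C₁ := by positivity
  have hD₁0 : 0 ≤ D₁ := by positivity
  exact log_step d0.le (by linarith) hL0 hlow hC₁0 hD₁0 h3 h4

end

end Pool.Agent.N397.AV
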