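import Pool.Agent.X278.AV.Mat

/-!
# Representations of finite groups by matrices: the means of `χ(g²)` and `χ(g)²`
-/

set_option autoImplicit false

namespace Pool.Agent.N397.AV

open Matrix Finset
open Pool.Agent.X278.AV (eigen)

theorem trace_eig {n : ℕ} {M : Matrix (Fin n) (Fin n) ℂ} {μ : Fin n → ℂ}
    (h : ∀ z : ℂ, z ≠ 0 → (1 - z • M).det = ∏ j, (1 - z * μ j)) : M.trace = ∑ j, μ j := by
  have hc : M.charpoly = (((univ : Finset (Fin n)).val.map μ).map fun a => Polynomial.X - Polynomial.C a).prod := by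
    apply Polynomial.eq_of_infinite_eval_eq
    have h0 : ({0}ᶜ : Set ℂ).Infinite := (Set.finite_singleton (0 : ℂ)).infinite_compl
    refine h0.mono fun w hw => ?_
    have hw0 : w ≠ 0 := hw
    show Polynomial.eval w M.charpoly = _
    rw [Matrix.eval_charpoly, Multiset.map_map, Polynomial.eval_multiset_prod, Multiset.map_map]
    have h2 : (Matrix.scalar (Fin n) w - M) = w • (1 - w⁻¹ • M) := by
      rw [smul_sub, smul_smul, mul_inv_cancel₀ hw0, one_smul]
      congr 1
      ext i j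
      simp [Matrix.scalar_apply, Matrix.diagonal_apply, Matrix.one_apply]
    rw [h2, Matrix.det_smul, h _ (inv_ne_zero hw0), Fintype.card_fin]
    have h3 : w ^ n = ∏ _j : Fin n, w := by simp
    rw [h3, ← Finset.prod_mul_distrib]
    show _ = ∏ j, _
    refine Finset.prod_congr rfl fun j _ => ?_
    simp only [Function.comp_apply, Polynomial.eval_sub, Polynomial.eval_X, Polynomial.eval_C]
    field_simp
  rw [Matrix.trace_eq_sum_roots_charpoly, hc, Polynomial.roots_multiset_prod_X_sub_C]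
  rfl

theorem trace_inv {n k : ℕ} (hk : k ≠ 0) {M M' : Matrix (Fin n) (Fin n) ℂ} (hM : M ^ k = 1) (hM' : M * M' = 1) :
    M'.trace = (starRingEnd ℂ) M.trace := by
  obtain ⟨μ, h1, h2, -, -⟩ := eigen hk hM
  have t1 : M.trace = ∑ j, μ j := trace_eig fun z _ => h2 z
  have hμ0 : ∀ j, μ j ≠ 0 := fun j h => by
    have := h1 j
    rw [h, norm_zero] at this
    exact zero_ne_one this
  have hdet0 : M.det * M'.det = 1 := by rw [← Matrix.det_mul, hM', Matrix.det_one]
  have hdetz : ∀ z : ℂ, z ≠ 0 → (M - z • 1).det = ∏ j, (μ j - z) := by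
    intro z hz
    have e1 : M - z • (1 : Matrix (Fin n) (Fin n) ℂ) = (-z) • (1 - z⁻¹ • M) := by
      rw [smul_sub, smul_smul, neg_smul, neg_mul, mul_inv_cancel₀ hz, neg_smul, one_smul]
      abel
    rw [e1, Matrix.det_smul, h2, Fintype.card_fin]
    have h3 : (-z) ^ n = ∏ _j : Fin n, (-z) := by simp
    rw [h3, ← Finset.prod_mul_distrib]
    refine Finset.prod_congr rfl fun j _ => ?_
    field_simp
    ring
  have hdetM : M.det = ∏ j, μ j := by
    have h4 := h2
    -- compare the two polynomials at all nonzero points, then use the characteristic polynomial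
    have hc : M.charpoly = (((univ : Finset (Fin n)).val.map μ).map fun a => Polynomial.X - Polynomial.C a).prod := by
      apply Polynomial.eq_of_infinite_eval_eq
      have h0 : ({0}ᶜ : Set ℂ).Infinite := (Set.finite_singleton (0 : ℂ)).infinite_compl
      refine h0.mono fun w hw => ?_
      have hw0 : w ≠ 0 := hw
      show Polynomial.eval w M.charpoly = _
      rw [Matrix.eval_charpoly, Multiset.map_map, Polynomial.eval_multiset_prod, Multiset.map_map]
      have e2 : (Matrix.scalar (Fin n) w - M) = w • (1 - w⁻¹ • M) := by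
        rw [smul_sub, smul_smul, mul_inv_cancel₀ hw0, one_smul]
        congr 1
        ext i j
        simp [Matrix.scalar_apply, Matrix.diagonal_apply, Matrix.one_apply]
      rw [e2, Matrix.det_smul, h2, Fintype.card_fin]
      have h3 : w ^ n = ∏ _j : Fin n, w := by simp
      rw [h3, ← Finset.prod_mul_distrib]
      show _ = ∏ j, _
      refine Finset.prod_congr rfl fun j _ => ?_
      simp only [Function.comp_apply, Polynomial.eval_sub, Polynomial.eval_X, Polynomial.eval_C]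
      field_simp
    rw [Matrix.det_eq_prod_roots_charpoly, hc, Polynomial.roots_multiset_prod_X_sub_C]
    rfl
  have t2 : M'.trace = ∑ j, (μ j)⁻¹ := by
    apply trace_eig
    intro z hz
    have e1 : (1 - z • M') = M' * (M - z • 1) := by
      have hM'' : M' * M = 1 := mul_eq_one_comm.1 hM'
      rw [mul_sub, hM'', Matrix.mul_smul, mul_one]
    rw [e1, Matrix.det_mul, hdetz z hz]
    have h5 : M'.det = ∏ j, (μ j)⁻¹ := by
      rw [Finset.prod_inv_distrib, ← hdetM]
      exact eq_inv_of_mul_eq_one_right hdet0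
    rw [h5, ← Finset.prod_mul_distrib]
    refine Finset.prod_congr rfl fun j _ => ?_
    have := hμ0 j
    field_simp
  rw [t1, t2, map_sum]
  refine Finset.sum_congr rfl fun j _ => ?_
  rw [Complex.inv_def, Complex.normSq_eq_norm_sq, h1 j]
  simp

variable {G : Type} [Group G] [Fintype G] {n : ℕ}

/-- only the scalar matrices commute with the representation -/
def Irr (ρ : G →* Matrix (Fin n) (Fin n) ℂ) : Prop :=
  0 < n ∧ ∀ Y : Matrix (Fin n) (Fin n) ℂ, (∀ g, ρ g * Y = Y * ρ g) → ∃ c : ℂ, Y = c • (1 : Matrix (Fin n) (Fin n) ℂ)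

/-- invariant bilinear forms -/
def InvForm (ρ : G →* Matrix (Fin n) (Fin n) ℂ) (Y : Matrix (Fin n) (Fin n) ℂ) : Prop := ∀ g, ρ g * Y * (ρ g)ᵀ = Y

theorem rho_inv (ρ : G →* Matrix (Fin n) (Fin n) ℂ) (g : G) : ρ g * ρ g⁻¹ = 1 ∧ ρ g⁻¹ * ρ g = 1 := by
  constructor
  · rw [← map_mul, mul_inv_cancel, map_one]
  · rw [← map_mul, inv_mul_cancel, map_one]

theorem sum_entry (M N : G → Matrix (Fin n) (Fin n) ℂ) (i j k l : Fin n) :
    (∑ g, M g * Matrix.single j k (1 : ℂ) * N g) i l = ∑ g, M g i j * N g k l := by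
  rw [Matrix.sum_apply]
  refine Finset.sum_congr rfl fun g _ => ?_
  rw [Matrix.mul_apply]
  have h1 : ∀ x, (M g * Matrix.single j k (1 : ℂ)) i x = if x = k then M g i j else 0 := by
    intro x
    split_ifs with hx
    · rw [hx, Matrix.mul_single_apply_same, mul_one]
    · rw [Matrix.mul_single_apply_of_ne _ _ _ _ _ hx]
  simp only [h1, ite_mul, zero_mul]
  rw [Finset.sum_ite_eq' univ k]
  simp

/-- **orthogonality** -/
theorem norm_mean {ρ : G →* Matrix (Fin n) (Fin n) ℂ} (h : Irr ρ) :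
    ∑ g, (ρ g).trace * (ρ g⁻¹).trace = Fintype.card G := by
  obtain ⟨hn, hirr⟩ := h
  have hnc : (n : ℂ) ≠ 0 := by exact_mod_cast hn.ne'
  have key : ∀ i j k l : Fin n, ∑ g, ρ g i j * ρ g⁻¹ k l =
      if j = k ∧ i = l then (Fintype.card G : ℂ) / n else 0 := by
    intro i j k l
    set Y : Matrix (Fin n) (Fin n) ℂ := ∑ g, ρ g * Matrix.single j k (1 : ℂ) * ρ g⁻¹ with hY
    have hcomm : ∀ a, ρ a * Y = Y * ρ a := by
      intro a
      rw [hY, Finset.mul_sum, Finset.sum_mul]
      refine Fintype.sum_equiv (Equiv.mulLeft a) _ _ fun g => ?_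
      simp only [Equiv.coe_mulLeft]
      rw [map_mul, _root_.mul_inv_rev, map_mul]
      simp only [mul_assoc]
      rw [(rho_inv ρ a).2, mul_one]
    obtain ⟨c, hc⟩ := hirr Y hcomm
    have htr : Y.trace = (Fintype.card G : ℂ) * (if j = k then 1 else 0) := by
      rw [hY, Matrix.trace_sum]
      have h1 : ∀ g, (ρ g * Matrix.single j k (1 : ℂ) * ρ g⁻¹).trace = if j = k then 1 else 0 := by
        intro g
        rw [Matrix.trace_mul_cycle, (rho_inv ρ g).2, one_mul]
        split_ifs with hjk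
        · rw [hjk, Matrix.trace_single_eq_same]
        · rw [Matrix.trace_single_eq_of_ne _ _ _ hjk]
      rw [Finset.sum_congr rfl fun g _ => h1 g, Finset.sum_const, Finset.card_univ, nsmul_eq_mul]
    have hcn : c * n = (Fintype.card G : ℂ) * (if j = k then 1 else 0) := by
      rw [← htr, hc, Matrix.trace_smul, Matrix.trace_one, Fintype.card_fin, smul_eq_mul]
    have hent : ∑ g, ρ g i j * ρ g⁻¹ k l = c * (if i = l then 1 else 0) := by
      rw [← sum_entry (fun g => ρ g) (fun g => ρ g⁻¹) i j k l]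
      show Y i l = _
      rw [hc, Matrix.smul_apply, Matrix.one_apply, smul_eq_mul]
    rw [hent]
    have hcval : c = (Fintype.card G : ℂ) * (if j = k then 1 else 0) / n := by
      rw [← hcn]
      field_simp
    rw [hcval]
    by_cases hjk : j = k <;> by_cases hil : i = l <;> simp [hjk, hil]
  have e1 : ∀ g, (ρ g).trace * (ρ g⁻¹).trace = ∑ i, ∑ k, ρ g i i * ρ g⁻¹ k k := by
    intro g
    unfold Matrix.trace
    rw [Finset.sum_mul_sum]
    rfl
  simp only [e1]
  rw [Finset.sum_comm]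
  have e2 : ∀ i, ∑ g, ∑ k, ρ g i i * ρ g⁻¹ k k = (Fintype.card G : ℂ) / n := by
    intro i
    rw [Finset.sum_comm]
    simp only [key]
    have : ∀ k : Fin n, (if i = k ∧ i = k then (Fintype.card G : ℂ) / n else 0) = if i = k then (Fintype.card G : ℂ) / n else 0 := by
      intro k
      simp
    simp only [this]
    rw [Finset.sum_ite_eq univ i]
    simp
  rw [Finset.sum_congr rfl fun i _ => e2 i, Finset.sum_const, Finset.card_univ, Fintype.card_fin, nsmul_eq_mul]
  field_simp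

/-- the sums of products of two entries give invariant forms -/
theorem form_avg (ρ : G →* Matrix (Fin n) (Fin n) ℂ) (X : Matrix (Fin n) (Fin n) ℂ) :
    InvForm ρ (∑ g, ρ g * X * (ρ g)ᵀ) := by
  intro a
  rw [Finset.mul_sum, Finset.sum_mul]
  refine Fintype.sum_equiv (Equiv.mulLeft a) _ _ fun g => ?_
  simp only [Equiv.coe_mulLeft]
  rw [map_mul, Matrix.transpose_mul]
  simp only [mul_assoc]

theorem sq_expand (ρ : G →* Matrix (Fin n) (Fin n) ℂ) (g : G) :
    (ρ g).trace ^ 2 = ∑ i, ∑ k, ρ g i i * ρ g k k ∧ (ρ (g ^ 2)).trace = ∑ i, ∑ k, ρ g i k * ρ g k i := by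
  constructor
  · unfold Matrix.trace
    rw [sq, Finset.sum_mul_sum]
    rfl
  · rw [map_pow, sq]
    unfold Matrix.trace
    simp only [Matrix.diag_apply, Matrix.mul_apply]

theorem ent (ρ : G →* Matrix (Fin n) (Fin n) ℂ) (i j k l : Fin n) :
    (∑ g, ρ g * Matrix.single j l (1 : ℂ) * (ρ g)ᵀ) i k = ∑ g, ρ g i j * ρ g k l := by
  rw [sum_entry (fun g => ρ g) (fun g => (ρ g)ᵀ) i j l k]
  rfl

/-- no invariant forms -/
theorem no_form {ρ : G →* Matrix (Fin n) (Fin n) ℂ} (h : ∀ Y, InvForm ρ Y → Y = 0) :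
    ∑ g, (ρ g).trace ^ 2 = 0 ∧ ∑ g, (ρ (g ^ 2)).trace = 0 := by
  have key : ∀ i j k l : Fin n, ∑ g, ρ g i j * ρ g k l = 0 := by
    intro i j k l
    rw [← ent, h _ (form_avg ρ _)]
    rfl
  constructor
  · simp only [fun g => (sq_expand ρ g).1]
    rw [Finset.sum_comm]
    refine Finset.sum_eq_zero fun i _ => ?_
    rw [Finset.sum_comm]
    exact Finset.sum_eq_zero fun k _ => key i i k k
  · simp only [fun g => (sq_expand ρ g).2]
    rw [Finset.sum_comm]
    refine Finset.sum_eq_zero fun i _ => ?_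
    rw [Finset.sum_comm]
    exact Finset.sum_eq_zero fun k _ => key i k k i

/-- a nondegenerate form -/
theorem one_form {ρ : G →* Matrix (Fin n) (Fin n) ℂ} (h : Irr ρ) {Y : Matrix (Fin n) (Fin n) ℂ} (hY : InvForm ρ Y)
    (hu : IsUnit Y.det) {c : ℂ} (hc : Yᵀ = c • Y) :
    ∑ g, (ρ g).trace ^ 2 = Fintype.card G ∧ ∑ g, (ρ (g ^ 2)).trace = c * Fintype.card G := by
  obtain ⟨hn, hirr⟩ := h
  have hYY : Y * Y⁻¹ = 1 := Matrix.mul_nonsing_inv _ hu
  have hYY' : Y⁻¹ * Y = 1 := Matrix.nonsing_inv_mul _ hu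
  have hdim : ∀ Z, InvForm ρ Z → ∃ t : ℂ, Z = t • Y := by
    intro Z hZ
    have hcm : ∀ g, ρ g * (Z * Y⁻¹) = (Z * Y⁻¹) * ρ g := by
      intro g
      have hT : (ρ g)ᵀ * (ρ g⁻¹)ᵀ = 1 := by rw [← Matrix.transpose_mul, (rho_inv ρ g).2, Matrix.transpose_one]
      have e1 : ρ g * Z = Z * (ρ g⁻¹)ᵀ := by
        calc ρ g * Z = (ρ g * Z * (ρ g)ᵀ) * (ρ g⁻¹)ᵀ := by rw [mul_assoc _ (ρ g)ᵀ, hT, mul_one]
          _ = _ := by rw [hZ g]
      have e2 : ρ g * Y = Y * (ρ g⁻¹)ᵀ := by
        calc ρ g * Y = (ρ g * Y * (ρ g)ᵀ) * (ρ g⁻¹)ᵀ := by rw [mul_assoc _ (ρ g)ᵀ, hT, mul_one]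
          _ = _ := by rw [hY g]
      have e3 : Y⁻¹ * ρ g = (ρ g⁻¹)ᵀ * Y⁻¹ := by
        calc Y⁻¹ * ρ g = Y⁻¹ * (ρ g * Y) * Y⁻¹ := by rw [mul_assoc, mul_assoc, hYY, mul_one]
          _ = Y⁻¹ * (Y * (ρ g⁻¹)ᵀ) * Y⁻¹ := by rw [e2]
          _ = _ := by rw [← mul_assoc, hYY', one_mul]
      rw [← mul_assoc, e1, mul_assoc, mul_assoc, e3]
    obtain ⟨t, ht⟩ := hirr _ hcm
    refine ⟨t, ?_⟩
    calc Z = (Z * Y⁻¹) * Y := by rw [mul_assoc, hYY', mul_one]
      _ = t • Y := by rw [ht, Matrix.smul_mul, one_mul]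
  choose t ht using fun j l : Fin n => hdim _ (form_avg ρ (Matrix.single j l (1 : ℂ)))
  have key : ∀ i j k l : Fin n, ∑ g, ρ g i j * ρ g k l = t j l * Y i k := by
    intro i j k l
    rw [← ent, ht j l, Matrix.smul_apply, smul_eq_mul]
  have hY0 : ∃ i k, Y i k ≠ 0 := by
    by_contra hcon
    push Not at hcon
    have : Y = 0 := by ext i k; exact hcon i k
    rw [this, zero_mul] at hYY
    have h1 := congrFun (congrFun hYY ⟨0, hn⟩) ⟨0, hn⟩
    rw [Matrix.zero_apply, Matrix.one_apply_eq] at h1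
    exact zero_ne_one h1
  obtain ⟨i₀, k₀, hik⟩ := hY0
  have hsum : ∑ j, ∑ l, Y j l * t j l = Fintype.card G := by
    have h1 : ∑ j, ∑ l, Y j l * ∑ g, ρ g i₀ j * ρ g k₀ l = (Fintype.card G : ℂ) * Y i₀ k₀ := by
      have h2 : ∀ g, ∑ j, ∑ l, Y j l * (ρ g i₀ j * ρ g k₀ l) = Y i₀ k₀ := by
        intro g
        have h3 := congrFun (congrFun (hY g) i₀) k₀
        rw [Matrix.mul_apply] at h3
        rw [← h3, Finset.sum_comm]
        refine Finset.sum_congr rfl fun l _ => ?_
        rw [Matrix.mul_apply, Finset.sum_mul]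
        refine Finset.sum_congr rfl fun j _ => ?_
        rw [Matrix.transpose_apply]
        ring
      simp only [Finset.mul_sum]
      have h4 : ∑ j, ∑ l, ∑ g, Y j l * (ρ g i₀ j * ρ g k₀ l) = ∑ g, ∑ j, ∑ l, Y j l * (ρ g i₀ j * ρ g k₀ l) := by
        exact (Finset.sum_congr rfl fun j _ => Finset.sum_comm).trans Finset.sum_comm
      rw [h4, Finset.sum_congr rfl fun g _ => h2 g, Finset.sum_const, Finset.card_univ, nsmul_eq_mul]
    simp only [key] at h1
    have h5 : ∑ j, ∑ l, Y j l * (t j l * Y i₀ k₀) = (∑ j, ∑ l, Y j l * t j l) * Y i₀ k₀ := by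
      rw [Finset.sum_mul]
      refine Finset.sum_congr rfl fun j _ => ?_
      rw [Finset.sum_mul]
      exact Finset.sum_congr rfl fun l _ => by ring
    rw [h5] at h1
    exact mul_right_cancel₀ hik h1
  constructor
  · simp only [fun g => (sq_expand ρ g).1]
    rw [Finset.sum_comm]
    rw [← hsum]
    refine Finset.sum_congr rfl fun i _ => ?_
    rw [Finset.sum_comm]
    refine Finset.sum_congr rfl fun k _ => ?_
    rw [key]
    ring
  · simp only [fun g => (sq_expand ρ g).2]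
    rw [Finset.sum_comm, ← hsum, Finset.mul_sum]
    have h6 : ∀ i, ∑ g, ∑ k, ρ g i k * ρ g k i = ∑ k, t k i * Y i k := by
      intro i
      rw [Finset.sum_comm]
      exact Finset.sum_congr rfl fun k _ => key i k k i
    rw [Finset.sum_congr rfl fun i _ => h6 i, Finset.sum_comm]
    refine Finset.sum_congr rfl fun k _ => ?_
    rw [Finset.mul_sum]
    refine Finset.sum_congr rfl fun i _ => ?_
    have h7 : Y i k = c * Y k i := by
      have := congrFun (congrFun hc k) i
      rw [Matrix.transpose_apply, Matrix.smul_apply, smul_eq_mul] at this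
      exact this
    rw [h7]
    ring

end Pool.Agent.N397.AV
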