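import Pool.Agent.X278.AV.Art2
import Pool.Agent.N397.AV.PDep2

/-!
# The second moment of the local functions with twists
-/

set_option autoImplicit false

namespace Pool.Agent.N397.AV

open Filter Topology Finset
open Pool.Agent.X278.AV Pool.Agent.X278.OP
open Pool.Agent.W189.ML (om om_nonneg)

variable {n : ℕ}

section

variable {k : Type} [Field k] [Fintype k] [DecidableEq k]

theorem fT_one {μ : ℂ} (hμ : ‖μ‖ ≤ 1) {a b : k} (h : (6 : k) * (4 * a ^ 3 + 27 * b ^ 2) ≠ 0) :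
    |fT μ a b - ((TT a b : ℤ) : ℝ) / (Fintype.card k : ℝ) * μ.re| ≤ 5 / (Fintype.card k : ℝ) := by
  have hq1 : (1 : ℝ) ≤ (Fintype.card k : ℝ) := by exact_mod_cast (Fintype.card_pos : 0 < Fintype.card k)
  obtain ⟨h1, -⟩ := fT_exp hμ h
  have h3 := TT_bound h
  set q : ℝ := ((Fintype.card k : ℕ) : ℝ) with hqd
  have hq0 : 0 < q := by linarith
  set r : ℝ := √q with hr
  have hr0 : 0 < r := Real.sqrt_pos.2 hq0
  have hr1 : 1 ≤ r := Real.one_le_sqrt.2 hq1
  have hrq : r ^ 2 = q := Real.sq_sqrt hq0.le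
  set t : ℝ := ((TT a b : ℤ) : ℝ) with ht
  have hμ2 : |(μ ^ 2).re| ≤ 1 := (Complex.abs_re_le_norm _).trans (by
    rw [norm_pow]
    exact pow_le_one₀ (norm_nonneg _) hμ)
  have ht2 : t ^ 2 ≤ 4 * q := by
    rw [← sq_abs, ← hrq]
    have := pow_le_pow_left₀ (abs_nonneg t) h3 2
    calc |t| ^ 2 ≤ (2 * r) ^ 2 := this
      _ = _ := by ring
  have g1 : |fT μ a b - gT μ a b| ≤ 4 / q := by
    refine h1.trans ?_
    apply div_le_div_of_nonneg_left (by norm_num) hq0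
    nlinarith
  have g2 : |gT μ a b - t / q * μ.re| ≤ 1 / q := by
    have e1 : gT μ a b - t / q * μ.re = -((t ^ 2 - 2 * q) / (2 * q ^ 2) * (μ ^ 2).re) := by
      unfold gT
      rw [← hqd, ← ht]
      ring
    rw [e1, abs_neg, abs_mul, abs_div, abs_of_pos (by positivity : 0 < 2 * q ^ 2)]
    have g3 : |t ^ 2 - 2 * q| ≤ 2 * q := by
      rw [abs_le]
      constructor <;> nlinarith [sq_nonneg t]
    calc |t ^ 2 - 2 * q| / (2 * q ^ 2) * |(μ ^ 2).re| ≤ (2 * q) / (2 * q ^ 2) * 1 := by gcongr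
      _ = 1 / q := by field_simp
  have e2 : fT μ a b - t / q * μ.re = (fT μ a b - gT μ a b) + (gT μ a b - t / q * μ.re) := by ring
  rw [e2]
  refine (abs_add_le _ _).trans ((add_le_add g1 g2).trans (le_of_eq ?_))
  ring

theorem fS_sq_mean (h6 : (6 : k) ≠ 0) {μ : Fin n → ℂ} (hμ : ∀ j, ‖μ j‖ ≤ 1) :
    |(∑ a : k, ∑ b : k, (∑ j, fT (μ j) a b) ^ 2) / (Fintype.card k : ℝ) ^ 2 -
      (∑ j, (μ j).re) ^ 2 / (Fintype.card k : ℝ)| ≤ 60 * n ^ 2 / (√(Fintype.card k) * Fintype.card k) := by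
  set q : ℝ := ((Fintype.card k : ℕ) : ℝ) with hqd
  have hq1 : (1 : ℝ) ≤ q := by
    rw [hqd]
    exact_mod_cast (Fintype.card_pos : 0 < Fintype.card k)
  have hq0 : 0 < q := by linarith
  set r : ℝ := √q with hr
  have hr0 : 0 < r := Real.sqrt_pos.2 hq0
  have hr1 : 1 ≤ r := Real.one_le_sqrt.2 hq1
  have hrq : r ^ 2 = q := Real.sq_sqrt hq0.le
  set m : ℝ := ∑ j, (μ j).re with hm
  have hn0 : (0 : ℝ) ≤ n := Nat.cast_nonneg n
  have hmn : |m| ≤ n := by
    refine (Finset.abs_sum_le_sum_abs _ _).trans ?_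
    calc _ ≤ ∑ _j : Fin n, (1 : ℝ) := Finset.sum_le_sum fun j _ => (Complex.abs_re_le_norm _).trans (hμ j)
      _ = n := by simp
  have hm2 : m ^ 2 ≤ n ^ 2 := by
    rw [← sq_abs]
    exact pow_le_pow_left₀ (abs_nonneg m) hmn 2
  set t : k → k → ℝ := fun a b => ((TT a b : ℤ) : ℝ) with ht
  have hcmp : ∀ a b : k, |(∑ j, fT (μ j) a b) ^ 2 - t a b ^ 2 * (m ^ 2 / q ^ 2)| ≤ 50 * n ^ 2 / (r * q) +
      (if 4 * a ^ 3 + 27 * b ^ 2 = 0 then n ^ 2 / q ^ 2 else 0) := by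
    intro a b
    by_cases h : 4 * a ^ 3 + 27 * b ^ 2 = 0
    · rw [if_pos h]
      have h1 : ∑ j, fT (μ j) a b = 0 := by
        refine Finset.sum_eq_zero fun j _ => ?_
        unfold fT
        rw [if_pos (by rw [h, mul_zero])]
      have h2 : |t a b| ≤ 1 := by
        have := TT_sing h6 h
        simp only [ht]
        exact_mod_cast this
      have h3 : t a b ^ 2 ≤ 1 := by
        rw [← sq_abs]
        nlinarith [abs_nonneg (t a b)]
      rw [h1, zero_pow two_ne_zero, zero_sub, abs_neg, abs_of_nonneg (by positivity)]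
      have h5 : 0 ≤ 50 * (n : ℝ) ^ 2 / (r * q) := by positivity
      have h4 : t a b ^ 2 * (m ^ 2 / q ^ 2) ≤ 1 * (n ^ 2 / q ^ 2) := by gcongr
      linarith
    · rw [if_neg h, add_zero]
      have hne := mul_ne_zero h6 h
      have h3 : |t a b| ≤ 2 * r := by
        have := TT_bound hne
        rw [← hqd, ← hr] at this
        exact this
      have h4 : |∑ j, fT (μ j) a b - t a b / q * m| ≤ 5 * n / q := by
        rw [hm, Finset.mul_sum, ← Finset.sum_sub_distrib]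
        refine (Finset.abs_sum_le_sum_abs _ _).trans ?_
        calc _ ≤ ∑ _j : Fin n, 5 / q := Finset.sum_le_sum fun j _ => by
              have := fT_one (hμ j) hne
              rw [← hqd] at this
              exact this
          _ = _ := by
            rw [Finset.sum_const, Finset.card_univ, Fintype.card_fin, nsmul_eq_mul]
            ring
      have h5 : |∑ j, fT (μ j) a b + t a b / q * m| ≤ 10 * n / r := by
        have g1 : |t a b / q * m| ≤ 2 * n / r := by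
          rw [abs_mul, abs_div, abs_of_pos hq0]
          calc |t a b| / q * |m| ≤ (2 * r) / q * n := by gcongr
            _ = 2 * n / r := by rw [← hrq]; field_simp
        have g2 : |∑ j, fT (μ j) a b| ≤ 8 * n / r := by
          refine (Finset.abs_sum_le_sum_abs _ _).trans ?_
          calc _ ≤ ∑ _j : Fin n, 8 / r := Finset.sum_le_sum fun j _ => by
                have := fT_size (hμ j) a b
                rw [← hqd, ← hr] at this
                exact this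
            _ = _ := by
              rw [Finset.sum_const, Finset.card_univ, Fintype.card_fin, nsmul_eq_mul]
              ring
        have e3 : (10 : ℝ) * n / r = 8 * n / r + 2 * n / r := by ring
        rw [e3]
        exact (abs_add_le _ _).trans (add_le_add g2 g1)
      have e1 : (∑ j, fT (μ j) a b) ^ 2 - t a b ^ 2 * (m ^ 2 / q ^ 2) =
          (∑ j, fT (μ j) a b - t a b / q * m) * (∑ j, fT (μ j) a b + t a b / q * m) := by
        field_simp
        ring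
      rw [e1, abs_mul]
      calc _ ≤ (5 * n / q) * (10 * n / r) := mul_le_mul h4 h5 (abs_nonneg _) (by positivity)
        _ = 50 * n ^ 2 / (r * q) := by field_simp; ring
  have hsum1 : |∑ a : k, ∑ b : k, (∑ j, fT (μ j) a b) ^ 2 - ∑ a : k, ∑ b : k, t a b ^ 2 * (m ^ 2 / q ^ 2)| ≤
      q ^ 2 * (50 * n ^ 2 / (r * q)) + 2 * n ^ 2 / q := by
    rw [← Finset.sum_sub_distrib]
    simp only [← Finset.sum_sub_distrib]
    refine (Finset.abs_sum_le_sum_abs _ _).trans ((Finset.sum_le_sum fun a _ =>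
      (Finset.abs_sum_le_sum_abs _ _).trans (Finset.sum_le_sum fun b _ => hcmp a b)).trans ?_)
    simp only [Finset.sum_add_distrib, Finset.sum_const, Finset.card_univ, nsmul_eq_mul]
    have h1 : ∑ a : k, ∑ b : k, (if 4 * a ^ 3 + 27 * b ^ 2 = 0 then (n : ℝ) ^ 2 / q ^ 2 else 0) ≤ 2 * n ^ 2 / q := by
      have h2 : ∀ a : k, ∑ b : k, (if 4 * a ^ 3 + 27 * b ^ 2 = 0 then (n : ℝ) ^ 2 / q ^ 2 else (0 : ℝ)) =
          ((univ.filter fun b : k => 4 * a ^ 3 + 27 * b ^ 2 = 0).card : ℝ) * ((n : ℝ) ^ 2 / q ^ 2) := by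
        intro a
        rw [← Finset.sum_filter, Finset.sum_const, nsmul_eq_mul]
      simp only [h2]
      rw [← Finset.sum_mul]
      have h3 : (∑ a : k, ((univ.filter fun b : k => 4 * a ^ 3 + 27 * b ^ 2 = 0).card : ℝ)) ≤ 2 * q := by
        have := card_sing h6
        rw [hqd]
        exact_mod_cast this
      calc _ ≤ (2 * q) * ((n : ℝ) ^ 2 / q ^ 2) := by gcongr
        _ = 2 * n ^ 2 / q := by field_simp
    rw [← hqd]
    have e1 : q * (q * (50 * (n : ℝ) ^ 2 / (r * q))) = q ^ 2 * (50 * n ^ 2 / (r * q)) := by ring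
    rw [e1]
    linarith
  have hM2 : ∑ a : k, ∑ b : k, t a b ^ 2 * (m ^ 2 / q ^ 2) = m ^ 2 * (q - 1) := by
    have h1 := congrArg (fun z : ℤ => (z : ℝ)) (moment2 h6)
    have h2 : ∑ a : k, ∑ b : k, t a b ^ 2 = q ^ 2 * (q - 1) := by
      simp only [ht, hqd]
      push_cast at h1
      exact h1
    simp only [← Finset.sum_mul]
    rw [h2]
    field_simp
  rw [hM2] at hsum1
  have e1 : (∑ a : k, ∑ b : k, (∑ j, fT (μ j) a b) ^ 2) / q ^ 2 - m ^ 2 / q =
      ((∑ a : k, ∑ b : k, (∑ j, fT (μ j) a b) ^ 2 - m ^ 2 * (q - 1)) - m ^ 2) / q ^ 2 := by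
    field_simp
    ring
  rw [e1, abs_div, abs_of_pos (by positivity : 0 < q ^ 2), div_le_iff₀ (by positivity)]
  have h7 : |(∑ a : k, ∑ b : k, (∑ j, fT (μ j) a b) ^ 2 - m ^ 2 * (q - 1)) - m ^ 2| ≤
      (q ^ 2 * (50 * n ^ 2 / (r * q)) + 2 * n ^ 2 / q) + n ^ 2 := by
    refine (abs_sub _ _).trans ?_
    rw [abs_of_nonneg (sq_nonneg m)]
    linarith
  refine h7.trans ?_
  have e2 : 60 * (n : ℝ) ^ 2 / (r * q) * q ^ 2 = 60 * n ^ 2 * (q / r) := by field_simp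
  have e3 : q ^ 2 * (50 * (n : ℝ) ^ 2 / (r * q)) = 50 * n ^ 2 * (q / r) := by field_simp
  rw [e2, e3]
  have h8 : 1 ≤ q / r := by
    rw [le_div_iff₀ hr0, ← hrq]
    nlinarith
  have h9 : 2 * (n : ℝ) ^ 2 / q ≤ 2 * n ^ 2 := by
    rw [div_le_iff₀ hq0]
    nlinarith [sq_nonneg (n : ℝ)]
  nlinarith [sq_nonneg (n : ℝ)]

end

/-- the real part of the trace -/
noncomputable def mA (μ : Nat.Primes → Fin n → ℂ) (p : Nat.Primes) : ℝ := ∑ j, (μ p j).re

theorem mA_le {μ : Nat.Primes → Fin n → ℂ} (hμ : ∀ p j, ‖μ p j‖ ≤ 1) (p : Nat.Primes) : mA μ p ^ 2 ≤ n ^ 2 := by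
  have h : |mA μ p| ≤ n := by
    refine (Finset.abs_sum_le_sum_abs _ _).trans ?_
    calc _ ≤ ∑ _j : Fin n, (1 : ℝ) := Finset.sum_le_sum fun j _ => (Complex.abs_re_le_norm _).trans (hμ p j)
      _ = n := by simp
  rw [← sq_abs]
  exact pow_le_pow_left₀ (abs_nonneg _) h 2

theorem exA2 {μ : Nat.Primes → Fin n → ℂ} (hμ : ∀ p j, ‖μ p j‖ ≤ 1) (p : Nat.Primes) :
    |Ex (∑ j, eH j) (p : ℕ) (fun r => fA μ p r ^ 2) - mA μ p ^ 2 / (p : ℕ)| ≤
      (130 * n ^ 2) / (√((p : ℕ) : ℝ) * (p : ℕ)) := by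
  have hp2 : (2 : ℝ) ≤ (p : ℕ) := by exact_mod_cast p.2.two_le
  have hp0 : (0 : ℝ) < (p : ℕ) := by linarith
  have hr0 : 0 < √((p : ℕ) : ℝ) := Real.sqrt_pos.2 hp0
  have h10 : ∑ j, eH j = 10 := by simp [eH]
  have hn : (0 : ℝ) ≤ n := Nat.cast_nonneg n
  have hm := mA_le hμ p
  by_cases h6 : (6 : ZMod p) = 0
  · have h1 : avg (fun r => fA μ p r ^ 2) = 0 := by
      have h2 : ∀ r : Fin 2 → ZMod p, fA μ p r ^ 2 = 0 := by
        intro r
        have : fA μ p r = 0 := by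
          unfold fA
          refine Finset.sum_eq_zero fun j _ => ?_
          unfold fT
          rw [if_pos (by rw [h6, zero_mul])]
        rw [this, zero_pow two_ne_zero]
      unfold avg
      simp [h2]
    unfold Ex
    rw [h1, zero_div, zero_sub, abs_neg, abs_of_nonneg (by positivity)]
    have hp3 : ((p : ℕ) : ℝ) ≤ 3 := by
      have h7 : ((6 : ℕ) : ZMod p) = 0 := by push_cast; exact h6
      rw [ZMod.natCast_eq_zero_iff] at h7
      have h8 : (p : ℕ) ∣ 2 * 3 := h7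
      rcases (Nat.Prime.dvd_mul p.2).1 h8 with h9 | h9
      · have := Nat.le_of_dvd (by norm_num) h9
        exact_mod_cast this.trans (by norm_num)
      · exact_mod_cast Nat.le_of_dvd (by norm_num) h9
    have hs3 : √((p : ℕ) : ℝ) ≤ 2 := by
      apply Real.sqrt_le_iff.2
      constructor <;> linarith
    rw [div_le_div_iff₀ (by positivity) (by positivity)]
    have h3 : √((p : ℕ) : ℝ) * (p : ℕ) ≤ 2 * (p : ℕ) := by gcongr
    calc mA μ p ^ 2 * (√((p : ℕ) : ℝ) * (p : ℕ)) ≤ (n : ℝ) ^ 2 * (2 * ((p : ℕ) : ℝ)) := by gcongr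
      _ ≤ 130 * (n : ℝ) ^ 2 * ((p : ℕ) : ℝ) := by nlinarith [mul_nonneg (sq_nonneg (n : ℝ)) hp0.le]
  have h1 := fS_sq_mean (k := ZMod p) h6 (hμ p)
  have hav : avg (fun r => fA μ p r ^ 2) =
      (∑ a : ZMod p, ∑ b : ZMod p, (∑ j, fT (μ p j) a b) ^ 2) / ((p : ℕ) : ℝ) ^ 2 := by
    unfold avg
    congr 1
    rw [← Fintype.sum_prod_type' (fun a b : ZMod p => (∑ j, fT (μ p j) a b) ^ 2)]
    exact Fintype.sum_equiv (finTwoArrowEquiv _) _ _ fun r => rfl
  have hmm : (∑ j, (μ p j).re) = mA μ p := rfl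
  rw [ZMod.card, ← hav, hmm] at h1
  set ε : ℝ := (((p : ℕ) : ℝ) ^ 10)⁻¹ with hε
  have hε0 : 0 < ε := by positivity
  have hε1 : ε ≤ 1 / ((p : ℕ) : ℝ) := by
    rw [hε, ← one_div]
    apply one_div_le_one_div_of_le hp0
    have : ((p : ℕ) : ℝ) ^ 1 ≤ ((p : ℕ) : ℝ) ^ 10 := pow_le_pow_right₀ (by linarith) (by norm_num)
    simpa using this
  have hε2 : ε ≤ 1 / 2 := hε1.trans (one_div_le_one_div_of_le (by norm_num) hp2)
  unfold Ex
  rw [h10, ← hε]
  set v : ℝ := mA μ p ^ 2 with hv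
  have hv0 : 0 ≤ v := sq_nonneg _
  have e1 : avg (fun r => fA μ p r ^ 2) / (1 - ε) - v / (p : ℕ) =
      (avg (fun r => fA μ p r ^ 2) - v / (p : ℕ) + ε * (v / (p : ℕ))) / (1 - ε) := by
    have : (1 - ε) ≠ 0 := by linarith
    field_simp
    ring
  rw [e1, abs_div, abs_of_pos (by linarith : 0 < 1 - ε), div_le_iff₀ (by linarith)]
  have h2 : |ε * (v / ((p : ℕ) : ℝ))| ≤ n ^ 2 / (√((p : ℕ) : ℝ) * (p : ℕ)) := by
    rw [abs_of_nonneg (by positivity)]
    have h3 : √((p : ℕ) : ℝ) ≤ (p : ℕ) := by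
      rw [Real.sqrt_le_left hp0.le]
      nlinarith
    have h4 : ε * √((p : ℕ) : ℝ) ≤ 1 := by
      calc ε * √((p : ℕ) : ℝ) ≤ (1 / ((p : ℕ) : ℝ)) * (p : ℕ) := by gcongr
        _ = 1 := by field_simp
    rw [le_div_iff₀ (by positivity)]
    calc ε * (v / ((p : ℕ) : ℝ)) * (√((p : ℕ) : ℝ) * (p : ℕ)) = (ε * √((p : ℕ) : ℝ)) * v := by field_simp
      _ ≤ 1 * n ^ 2 := by gcongr
      _ = _ := one_mul _
  have h3 := abs_add_le (avg (fun r => fA μ p r ^ 2) - v / ((p : ℕ) : ℝ)) (ε * (v / ((p : ℕ) : ℝ)))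
  have h4 : (65 * (n : ℝ) ^ 2) / (√((p : ℕ) : ℝ) * (p : ℕ)) ≤ 130 * n ^ 2 / (√((p : ℕ) : ℝ) * (p : ℕ)) * (1 - ε) := by
    rw [div_mul_eq_mul_div]
    apply div_le_div_of_nonneg_right _ (by positivity)
    nlinarith [sq_nonneg (n : ℝ)]
  have h5 : (61 * (n : ℝ) ^ 2) / (√((p : ℕ) : ℝ) * (p : ℕ)) = 60 * n ^ 2 / (√((p : ℕ) : ℝ) * (p : ℕ)) +
      n ^ 2 / (√((p : ℕ) : ℝ) * (p : ℕ)) := by ring
  have h6' : (61 * (n : ℝ) ^ 2) / (√((p : ℕ) : ℝ) * (p : ℕ)) ≤ 65 * n ^ 2 / (√((p : ℕ) : ℝ) * (p : ℕ)) := by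
    gcongr
    norm_num
  linarith

theorem fA0 (μ : Nat.Primes → Fin n → ℂ) (p : Nat.Primes) : fA μ p 0 = 0 := by
  unfold fA
  refine Finset.sum_eq_zero fun j _ => ?_
  unfold fT
  rw [if_pos (by simp)]

theorem eH_two : 2 ≤ ∑ j, eH j := by
  have h10 : ∑ j, eH j = 10 := by simp [eH]
  omega

/-- the local factor -/
noncomputable def pA (μ : Nat.Primes → Fin n → ℂ) (p : Nat.Primes) (x : ℝ) : ℝ := ph (∑ j, eH j) (fA μ) p x

theorem pA_pos {μ : Nat.Primes → Fin n → ℂ} (hμ : ∀ p j, ‖μ p j‖ ≤ 1) (p : Nat.Primes) (x : ℝ) : 0 < pA μ p x :=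
  ph_pos (by norm_num) eH_two (fA0 μ) (by positivity) (fA_size hμ) x p

/-- **the moments over all elliptic curves** -/
theorem mean_A {μ : Nat.Primes → Fin n → ℂ} (hμ : ∀ p j, ‖μ p j‖ ≤ 1) (γ c : ℝ) {T : ℝ} (hT : 0 < T) :
    Tendsto (fun X => mean (Fam eH ZH (abH X)) (fun x => Real.exp (c * ∑' p : Nat.Primes,
      wr γ (Real.log (p : ℕ) / T) * fA μ p (red p x)))) atTop
      (𝓝 (∏' p : Nat.Primes, pA μ p (c * wr γ (Real.log (p : ℕ) / T)))) :=
  mean_exp dataH (fA0 μ) (by positivity) (fA_size hμ) γ c hT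

open Classical in
/-- the extension of a function on the primes -/
noncomputable def ext0 (f : Nat.Primes → ℝ) (m : ℕ) : ℝ := if h : m.Prime then f ⟨m, h⟩ else 0

theorem ext0_prime (f : Nat.Primes → ℝ) (p : Nat.Primes) : ext0 f p = f p := by
  unfold ext0
  rw [dif_pos p.2]
  rfl

open Pool.Agent.W401.Cheb (M)

/-- **the growth of the moments** -/
theorem log_A {μ : Nat.Primes → Fin n → ℂ} (hμ : ∀ p j, ‖μ p j‖ ≤ 1) {ε v : ℝ}
    (h1 : Tendsto (M (ext0 fun p => ∑ j, (μ p j ^ 2).re)) atTop (𝓝 ε))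
    (h2 : Tendsto (M (ext0 fun p => mA μ p ^ 2)) atTop (𝓝 v)) (γ k : ℝ) :
    (∀ T : ℝ, 0 < T → 0 < ∏' p : Nat.Primes, pA μ p (k * wr γ (Real.log (p : ℕ) / T))) ∧
    Tendsto (fun T : ℝ => Real.log (∏' p : Nat.Primes, pA μ p (k * wr γ (Real.log (p : ℕ) / T))) / Real.log T) atTop
      (𝓝 (ε / 2 * k + v / 2 * k ^ 2)) := by
  have hb1 : ∀ p : Nat.Primes, |∑ j, (μ p j ^ 2).re| ≤ n := by
    intro p
    refine (Finset.abs_sum_le_sum_abs _ _).trans ?_
    calc _ ≤ ∑ _j : Fin n, (1 : ℝ) := Finset.sum_le_sum fun j _ => (Complex.abs_re_le_norm _).trans (by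
            rw [norm_pow]
            exact pow_le_one₀ (norm_nonneg _) (hμ p j))
      _ = n := by simp
  set A : ℕ → ℝ := fun m => (1 / 2) * ext0 (fun p => ∑ j, (μ p j ^ 2).re) m with hA
  set B : ℕ → ℝ := fun m => (1 / 2) * ext0 (fun p => mA μ p ^ 2) m with hB
  have mA' : Tendsto (M A) atTop (𝓝 (ε / 2)) := by
    have := h1.const_mul (1 / 2 : ℝ)
    rw [show (1 / 2 : ℝ) * ε = ε / 2 by ring] at this
    exact this.congr fun N => (Pool.Agent.W401.Cheb.M_smul _ _ N).symm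
  have mB' : Tendsto (M B) atTop (𝓝 (v / 2)) := by
    have := h2.const_mul (1 / 2 : ℝ)
    rw [show (1 / 2 : ℝ) * v = v / 2 by ring] at this
    exact this.congr fun N => (Pool.Agent.W401.Cheb.M_smul _ _ N).symm
  have hn : (0 : ℝ) ≤ n := Nat.cast_nonneg n
  have hAb : ∀ p : ℕ, p.Prime → |A p| ≤ n + n ^ 2 := by
    intro p hp
    have := hb1 ⟨p, hp⟩
    simp only [hA]
    rw [show ext0 (fun p => ∑ j, (μ p j ^ 2).re) p = ∑ j, (μ ⟨p, hp⟩ j ^ 2).re from ext0_prime _ ⟨p, hp⟩, abs_mul,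
      abs_of_pos (by norm_num : (0 : ℝ) < 1 / 2)]
    nlinarith
  have hBb : ∀ p : ℕ, p.Prime → |B p| ≤ n + n ^ 2 := by
    intro p hp
    have := mA_le hμ ⟨p, hp⟩
    simp only [hB]
    rw [show ext0 (fun p => mA μ p ^ 2) p = mA μ ⟨p, hp⟩ ^ 2 from ext0_prime _ ⟨p, hp⟩, abs_mul,
      abs_of_pos (by norm_num : (0 : ℝ) < 1 / 2), abs_of_nonneg (sq_nonneg _)]
    nlinarith [sq_nonneg (mA μ ⟨p, hp⟩)]
  refine prod_log γ hAb hBb mA' mB' (φ := pA μ) (pA_pos hμ) (fun K => ?_) k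
  obtain ⟨C, hC⟩ := ph_exp_dep (by norm_num) eH_two (fA0 μ) (by positivity) (fA_size hμ) (κ₀ := A)
    (v₀ := fun m => 2 * B m) (C := 24 * n + 130 * n ^ 2) (K₀ := 2 * (n + n ^ 2)) (by positivity)
    (fun p hp => (hAb p hp).trans (by nlinarith [sq_nonneg (n : ℝ)]))
    (fun p hp => by
      rw [abs_mul, abs_of_pos (by norm_num : (0 : ℝ) < 2)]
      exact mul_le_mul_of_nonneg_left (hBb p hp) (by norm_num))
    (fun p => by
      have h3 := exA hμ p
      have e1 : gA μ p = A p / (p : ℕ) := by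
        simp only [hA]
        rw [ext0_prime]
        unfold gA
        rw [← Finset.sum_div]
        field_simp
      rw [e1] at h3
      refine h3.trans ?_
      gcongr
      nlinarith [sq_nonneg (n : ℝ)])
    (fun p => by
      have h3 := exA2 hμ p
      have e1 : mA μ p ^ 2 / (p : ℕ) = 2 * B p / (p : ℕ) := by
        simp only [hB]
        rw [ext0_prime]
        ring
      rw [e1] at h3
      refine h3.trans ?_
      gcongr
      nlinarith) K
  refine ⟨C, fun p x hx => ?_⟩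
  have h3 := hC p x hx
  have e1 : 2 * B p / 2 * x ^ 2 = B p * x ^ 2 := by ring
  rw [e1] at h3
  exact h3

end Pool.Agent.N397.AV
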